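import Pool.Agent.GS78.Defs

/-!
# Gap sliding with a pool: embedding small acyclic digraphs, ranks of oriented trees
-/

namespace GS78

open Finset

/-- A digraph with a rank function can be placed on any `n` of its vertices in every tournament with at least
`2 ^ n * M` vertices, so that at least `M` vertices are dominated by the whole image. -/
theorem emb_acyc {V τ : Type*} [DecidableEq V] [DecidableEq τ] {R : V → V → Prop} (hT : Tour R) {E : τ → τ → Prop}
    (h : τ → ℕ) (hE : ∀ u v, E u v → h u < h v) (M : ℕ) (hM : 1 ≤ M) : ∀ (n : ℕ) (A : Finset τ), A.card = n →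
    ∀ X : Finset V, 2 ^ n * M ≤ X.card → ∃ (f : τ → V) (Y : Finset V), Y ⊆ X ∧ M ≤ Y.card ∧ (∀ a ∈ A, f a ∈ X) ∧
      (∀ a ∈ A, ∀ b ∈ A, f a = f b → a = b) ∧ (∀ u ∈ A, ∀ v ∈ A, E u v → R (f u) (f v)) ∧
      ∀ a ∈ A, ∀ y ∈ Y, R (f a) y := by
  classical
  intro n
  induction n with
  | zero =>
    intro A hA X hX
    rw [Finset.card_eq_zero] at hA
    subst hA
    have : 0 < X.card := by
      rw [pow_zero, one_mul] at hX
      omega
    obtain ⟨x, hx⟩ := Finset.card_pos.1 this
    refine ⟨fun _ => x, X, Finset.Subset.refl _, by simpa using hX, ?_, ?_, ?_, ?_⟩ <;> simp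
  | succ n ih =>
    intro A hA X hX
    have hAne : A.Nonempty := by
      rw [← Finset.card_pos, hA]; omega
    obtain ⟨u, huA, hu⟩ := Finset.exists_min_image A h hAne
    have hpos : 1 ≤ 2 ^ n * M := Nat.one_le_iff_ne_zero.2 (by positivity)
    obtain ⟨v, hvX, hv⟩ := exists_high hT (2 ^ n * M) hpos X (by rw [pow_succ] at hX; linarith)
    obtain ⟨f', Y, hYX, hMY, hf1, hf2, hf3, hf4⟩ := ih (A.erase u) (by rw [Finset.card_erase_of_mem huA, hA]; omega)
      (X.filter (fun w => R v w)) hv
    have hR : ∀ a ∈ A, a ≠ u → R v (f' a) := by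
      intro a ha hau
      exact (Finset.mem_filter.1 (hf1 a (Finset.mem_erase.2 ⟨hau, ha⟩))).2
    refine ⟨fun a => if a = u then v else f' a, Y, hYX.trans (Finset.filter_subset _ _), hMY, ?_, ?_, ?_, ?_⟩
    · intro a ha
      by_cases hau : a = u
      · simp only [hau, if_true]; exact hvX
      · simp only [hau, if_false]
        exact (Finset.mem_filter.1 (hf1 a (Finset.mem_erase.2 ⟨hau, ha⟩))).1
    · intro a ha b hb hab
      by_cases hau : a = u
      · by_cases hbu : b = u
        · rw [hau, hbu]
        · simp only [hau, hbu, if_true, if_false] at hab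
          exact absurd (hab ▸ hR b hb hbu) (by rw [← hab]; exact hT.irr v)
      · by_cases hbu : b = u
        · simp only [hau, hbu, if_true, if_false] at hab
          have := hR a ha hau
          rw [hab] at this
          exact absurd this (hT.irr v)
        · simp only [hau, hbu, if_false] at hab
          exact hf2 a (Finset.mem_erase.2 ⟨hau, ha⟩) b (Finset.mem_erase.2 ⟨hbu, hb⟩) hab
    · intro a ha b hb hab
      have hlt := hE a b hab
      have hbu : b ≠ u := by
        intro e
        have := hu a ha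
        rw [e] at hlt
        omega
      by_cases hau : a = u
      · simp only [hau, hbu, if_true, if_false]
        exact hR b hb hbu
      · simp only [hau, hbu, if_false]
        exact hf3 a (Finset.mem_erase.2 ⟨hau, ha⟩) b (Finset.mem_erase.2 ⟨hbu, hb⟩) hab
    · intro a ha y hy
      by_cases hau : a = u
      · simp only [hau, if_true]
        exact (Finset.mem_filter.1 (hYX hy)).2
      · simp only [hau, if_false]
        exact hf4 a (Finset.mem_erase.2 ⟨hau, ha⟩) y hy

open SimpleGraph in
/-- Every oriented tree (forest) has a rank function. -/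
theorem exists_rank {τ : Type*} [Finite τ] {E : τ → τ → Prop} (hanti : ∀ a b, E a b → ¬ E b a)
    (hG : (SimpleGraph.fromRel E).IsAcyclic) : ∃ h : τ → ℕ, ∀ u v, E u v → h u < h v := by
  classical
  refine ⟨fun w => {e : τ × τ | E e.1 e.2 ∧
    ((SimpleGraph.fromRel E).deleteEdges {s(e.1, e.2)}).Reachable e.2 w}.ncard, ?_⟩
  intro u v huv
  have hne : u ≠ v := fun e => by subst e; exact hanti _ _ huv huv
  have hadj : (SimpleGraph.fromRel E).Adj u v := ⟨hne, Or.inl huv⟩
  have hbr := isAcyclic_iff_forall_adj_isBridge.1 hG hadj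
  rw [isBridge_iff] at hbr
  refine Set.ncard_lt_ncard ?_ (Set.toFinite _)
  rw [Set.ssubset_iff_of_subset]
  · refine ⟨(u, v), ⟨huv, Reachable.refl _⟩, ?_⟩
    rintro ⟨-, h2⟩
    exact hbr h2.symm
  · rintro ⟨a, b⟩ ⟨hab, hr⟩
    refine ⟨hab, ?_⟩
    dsimp only at hab hr ⊢
    by_cases he : s(u, v) = s(a, b)
    · rw [Sym2.eq_iff] at he
      rcases he with ⟨h1, h2⟩ | ⟨h1, h2⟩
      · subst h1; subst h2; exact Reachable.refl _
      · subst h1; subst h2
        exact absurd hab (hanti _ _ huv)
    · refine hr.trans (Adj.reachable ?_)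
      rw [deleteEdges_adj]
      exact ⟨hadj, by simpa using he⟩

end GS78
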