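import Pool.Agent.GS78.Final

/-!
# Gap sliding with a pool: a linear bound for caterpillars with a directed spine and out-leaves
-/

namespace GS78

open Finset

/-- a decoration consisting of `c j` out-leaves -/
def DL {V : Type*} (R : V → V → Prop) (c : ℕ → ℕ) (j : ℕ) (p : V) (S : Finset V) : Prop :=
  S.card = c j ∧ ∀ s ∈ S, R p s

/-- a head consisting of a vertex with `a0` in-leaves and `b0` out-leaves -/
def HL {V : Type*} [DecidableEq V] (R : V → V → Prop) (a0 b0 : ℕ) (y : V) (S : Finset V) : Prop :=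
  ∃ A B : Finset V, S = A ∪ B ∧ A.card = a0 ∧ B.card = b0 ∧ (∀ a ∈ A, R a y) ∧ ∀ b ∈ B, R y b

theorem DL_sys {V : Type*} [DecidableEq V] (R : V → V → Prop) (c : ℕ → ℕ) (L : ℕ) (hL : ∀ j, c j ≤ L) :
    DecSys R (DL R c) c (L + 1) L 1 := by
  refine ⟨by omega, fun j q S hS => hS.2, fun j q S hS => hS.1, hL, ?_, ?_⟩
  · intro j q X hX hc
    obtain ⟨S, h1, h2⟩ := Finset.exists_subset_card_eq (s := X) (n := c j) (by have := hL j; omega)
    exact ⟨S, h1, h2, fun s hs => hX s (h1 hs)⟩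
  · intro j q S F X hS hX hc hd hne
    have hSF : (S ∩ F).card ≤ S.card := Finset.card_le_card Finset.inter_subset_left
    obtain ⟨Y, h1, h2⟩ := Finset.exists_subset_card_eq (s := X) (n := (S ∩ F).card) (by
      have := hL j
      have := hS.1
      omega)
    have hdis : Disjoint (S \ F) Y :=
      Finset.disjoint_of_subset_left Finset.sdiff_subset (Finset.disjoint_of_subset_right h1 hd)
    refine ⟨(S \ F) ∪ Y, Finset.union_subset_union_right h1, ⟨?_, ?_⟩, ?_⟩
    · rw [Finset.card_union_of_disjoint hdis, h2, ← hS.1]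
      have := Finset.card_sdiff_add_card_inter S F
      omega
    · intro s hs
      rcases Finset.mem_union.1 hs with h | h
      · exact hS.2 s (Finset.mem_sdiff.1 h).1
      · exact hX s (h1 h)
    · rw [one_mul, ← h2]
      apply Finset.card_le_card
      intro v hv
      rw [Finset.mem_inter] at hv
      rcases Finset.mem_union.1 hv.1 with h | h
      · exact absurd hv.2 (Finset.disjoint_left.1 hd (Finset.mem_sdiff.1 h).1)
      · exact h

theorem HL_card {V : Type*} [DecidableEq V] {R : V → V → Prop} (hT : Tour R) {a0 b0 : ℕ} (y : V) (S : Finset V)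
    (hS : HL R a0 b0 y S) : S.card = a0 + b0 := by
  obtain ⟨A, B, rfl, h1, h2, h3, h4⟩ := hS
  rw [Finset.card_union_of_disjoint, h1, h2]
  rw [Finset.disjoint_left]
  intro v hv hv'
  exact hT.asym _ _ (h3 v hv) (h4 v hv')

theorem Tour.flip {V : Type*} {R : V → V → Prop} (hT : Tour R) : Tour (fun a b => R b a) :=
  ⟨hT.irr, fun a b h => hT.tot b a h.symm, fun a b h => hT.asym b a h⟩

theorem HDL_ex {V : Type*} [DecidableEq V] {R : V → V → Prop} (hT : Tour R) (c : ℕ → ℕ) (L : ℕ) (hL : ∀ j, c j ≤ L)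
    (a0 b0 : ℕ) (ha0 : a0 ≤ L) (hb0 : b0 ≤ L) (a : ℕ) (X : Finset V) (hX : 6 * L + 5 ≤ X.card) :
    ∃ y S0 s F, y ∈ X ∧ S0 ⊆ X ∧ s ∈ X ∧ F ⊆ X ∧ HL R a0 b0 y S0 ∧ R y s ∧ DL R c a s F ∧
      y ∉ F ∧ s ∉ S0 ∧ Disjoint S0 F := by
  classical
  -- a vertex with large in- and out-degree
  have h1 : (X.filter (fun v => (X.filter (fun w => R v w)).card < 2 * L + 2)).card < 2 * (2 * L + 2) := by
    by_contra hcon
    obtain ⟨v, hv, hv2⟩ := exists_high hT (2 * L + 2) (by omega) _ (not_lt.1 hcon)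
    have h2 := (Finset.mem_filter.1 hv).2
    have h3 := Finset.card_le_card (Finset.filter_subset_filter (fun w => R v w)
      (Finset.filter_subset (fun v => (X.filter (fun w => R v w)).card < 2 * L + 2) X))
    omega
  have h2 : (X.filter (fun v => (X.filter (fun w => R w v)).card < L + 1)).card < 2 * (L + 1) := by
    by_contra hcon
    obtain ⟨v, hv, hv2⟩ := exists_high hT.flip (L + 1) (by omega) _ (not_lt.1 hcon)
    have h2 := (Finset.mem_filter.1 hv).2
    have h3 := Finset.card_le_card (Finset.filter_subset_filter (fun w => R w v)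
      (Finset.filter_subset (fun v => (X.filter (fun w => R w v)).card < L + 1) X))
    omega
  have h3 : ∃ y ∈ X, 2 * L + 2 ≤ (X.filter (fun w => R y w)).card ∧ L + 1 ≤ (X.filter (fun w => R w y)).card := by
    by_contra hcon
    push Not at hcon
    have hsub : X ⊆ (X.filter (fun v => (X.filter (fun w => R v w)).card < 2 * L + 2)) ∪
        (X.filter (fun v => (X.filter (fun w => R w v)).card < L + 1)) := by
      intro v hv
      rw [Finset.mem_union, Finset.mem_filter, Finset.mem_filter]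
      rcases Nat.lt_or_ge (X.filter (fun w => R v w)).card (2 * L + 2) with h | h
      · exact Or.inl ⟨hv, h⟩
      · exact Or.inr ⟨hv, hcon v hv h⟩
    have h4 := Finset.card_le_card hsub
    have h5 := Finset.card_union_le (X.filter (fun v => (X.filter (fun w => R v w)).card < 2 * L + 2))
      (X.filter (fun v => (X.filter (fun w => R w v)).card < L + 1))
    omega
  obtain ⟨y, hyX, hy1, hy2⟩ := h3
  obtain ⟨s, hs, hs2⟩ := exists_high hT (L + 1) (by omega) _ (show 2 * (L + 1) ≤ (X.filter (fun w => R y w)).card by omega)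
  obtain ⟨F, hF1, hF2⟩ := Finset.exists_subset_card_eq (s := (X.filter (fun w => R y w)).filter (fun w => R s w))
    (n := c a) (by have := hL a; omega)
  have hc1 : L + 1 ≤ ((X.filter (fun w => R y w)) \ (insert s F)).card := by
    have h4 := Finset.le_card_sdiff (insert s F) (X.filter (fun w => R y w))
    have h5 := Finset.card_insert_le s F
    have := hL a
    omega
  obtain ⟨B, hB1, hB2⟩ := Finset.exists_subset_card_eq (s := (X.filter (fun w => R y w)) \ (insert s F))
    (n := b0) (by omega)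
  obtain ⟨A, hA1, hA2⟩ := Finset.exists_subset_card_eq (s := X.filter (fun w => R w y)) (n := a0) (by omega)
  have hA : ∀ v ∈ A, v ∈ X ∧ R v y := fun v hv => by simpa using hA1 hv
  have hF : ∀ v ∈ F, v ∈ X ∧ R y v ∧ R s v := fun v hv => by
    have := hF1 hv
    simp only [Finset.mem_filter] at this
    exact ⟨this.1.1, this.1.2, this.2⟩
  have hB : ∀ v ∈ B, v ∈ X ∧ R y v ∧ v ≠ s ∧ v ∉ F := fun v hv => by
    have := hB1 hv
    simp only [Finset.mem_sdiff, Finset.mem_filter, Finset.mem_insert, not_or] at this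
    exact ⟨this.1.1, this.1.2, this.2.1, this.2.2⟩
  have hs' : s ∈ X ∧ R y s := by simpa using hs
  refine ⟨y, A ∪ B, s, F, hyX, ?_, hs'.1, fun v hv => (hF v hv).1, ⟨A, B, rfl, hA2, hB2, fun v hv => (hA v hv).2,
    fun v hv => (hB v hv).2.1⟩, hs'.2, ⟨hF2, fun v hv => (hF v hv).2.2⟩, ?_, ?_, ?_⟩
  · intro v hv
    rcases Finset.mem_union.1 hv with h | h
    · exact (hA v h).1
    · exact (hB v h).1
  · intro hmem
    exact hT.irr y (hF y hmem).2.1
  · intro hmem
    rcases Finset.mem_union.1 hmem with h | h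
    · exact hT.asym _ _ hs'.2 (hA s h).2
    · exact (hB s h).2.2.1 rfl
  · rw [Finset.disjoint_left]
    intro v hv hv'
    rcases Finset.mem_union.1 hv with h | h
    · exact hT.asym _ _ (hF v hv').2.1 (hA v h).2
    · exact (hB v h).2.2.2 hv'

theorem exists_bij {τ V : Type*} [DecidableEq V] (y : V) (A : Finset τ) (B : Finset V)
    (h : A.card = B.card) : ∃ f : τ → V, (∀ a ∈ A, ∀ b ∈ A, f a = f b → a = b) ∧ A.image f = B := by
  classical
  let e := Finset.equivOfCardEq h
  refine ⟨fun a => if ha : a ∈ A then (e ⟨a, ha⟩ : V) else y, ?_, ?_⟩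
  · intro a ha b hb hab
    simp only [ha, hb, dif_pos] at hab
    have := e.injective (Subtype.ext hab)
    exact congrArg Subtype.val this
  · ext v
    rw [Finset.mem_image]
    constructor
    · rintro ⟨a, ha, rfl⟩
      simp only [ha, dif_pos]
      exact (e ⟨a, ha⟩).2
    · intro hv
      refine ⟨(e.symm ⟨v, hv⟩ : τ), (e.symm ⟨v, hv⟩).2, ?_⟩
      rw [dif_pos (e.symm ⟨v, hv⟩).2]
      simp

theorem DL_DD {V τ : Type*} [DecidableEq V] [Fintype τ] [DecidableEq τ] {R : V → V → Prop} {E : τ → τ → Prop}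
    {q : ℕ → τ} {ι : τ → ℕ} (hno : ∀ j, ∀ u ∈ dc q ι j, ∀ v ∈ dc q ι j, ¬ E u v) (j : ℕ) (p : V) (S : Finset V)
    (hS : DL R (fun j => (dc q ι j).card) j p S) : DD R E q ι j p S := by
  obtain ⟨f, h1, h2⟩ := exists_bij p (dc q ι j) S hS.1.symm
  refine ⟨f, h1, h2.symm, ?_, fun a ha b hb hab => absurd hab (hno j a ha b hb)⟩
  intro a ha
  apply hS.2
  rw [← h2]
  exact Finset.mem_image_of_mem _ ha

theorem HL_HH {V τ : Type*} [DecidableEq V] [Fintype τ] [DecidableEq τ] {R : V → V → Prop} (hT : Tour R)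
    {E : τ → τ → Prop} (hanti : ∀ a b, E a b → ¬ E b a)
    {q : ℕ → τ} {ι : τ → ℕ} (hno : ∀ j, ∀ u ∈ dc q ι j, ∀ v ∈ dc q ι j, ¬ E u v) (A0 B0 : Finset τ)
    (hA0 : ∀ v, v ∈ A0 ↔ v ∈ dc q ι 0 ∧ E v (q 0)) (hB0 : ∀ v, v ∈ B0 ↔ v ∈ dc q ι 0 ∧ ¬ E v (q 0))
    (y : V) (S : Finset V) (hS : HL R A0.card B0.card y S) : HH R E q ι y S := by
  classical
  obtain ⟨A, B, rfl, h1, h2, h3, h4⟩ := hS
  obtain ⟨f, hf1, hf2⟩ := exists_bij y A0 A h1.symm
  obtain ⟨g, hg1, hg2⟩ := exists_bij y B0 B h2.symm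
  have hfA : ∀ a ∈ A0, f a ∈ A := fun a ha => by rw [← hf2]; exact Finset.mem_image_of_mem _ ha
  have hgB : ∀ a ∈ B0, g a ∈ B := fun a ha => by rw [← hg2]; exact Finset.mem_image_of_mem _ ha
  have hcase : ∀ v ∈ cl ι 0, v = q 0 ∨ v ∈ A0 ∨ v ∈ B0 := by
    intro v hv
    rw [mem_cl] at hv
    by_cases e : v = q 0
    · exact Or.inl e
    · right
      have : v ∈ dc q ι 0 := mem_dc.2 ⟨hv, e⟩
      by_cases e2 : E v (q 0)
      · exact Or.inl ((hA0 v).2 ⟨this, e2⟩)
      · exact Or.inr ((hB0 v).2 ⟨this, e2⟩)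
  have hne : ∀ v ∈ dc q ι 0, v ≠ q 0 := fun v hv => (mem_dc.1 hv).2
  set F : τ → V := fun v => if v = q 0 then y else if v ∈ A0 then f v else g v with hF
  have hFq : F (q 0) = y := by simp [hF]
  have hFA : ∀ v ∈ A0, F v = f v := by
    intro v hv
    have := hne v ((hA0 v).1 hv).1
    simp only [hF, this, hv, if_false, if_true]
  have hFB : ∀ v ∈ B0, F v = g v := by
    intro v hv
    have h5 := hne v ((hB0 v).1 hv).1
    have h6 : v ∉ A0 := fun h => ((hB0 v).1 hv).2 ((hA0 v).1 h).2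
    simp only [hF, h5, h6, if_false]
  have hyA : y ∉ A := fun h => hT.irr y (h3 y h)
  have hyB : y ∉ B := fun h => hT.irr y (h4 y h)
  have hAB : ∀ v ∈ A, v ∉ B := fun v hv hv' => hT.asym _ _ (h3 v hv) (h4 v hv')
  refine ⟨F, ?_, hFq, ?_, ?_⟩
  · intro a ha b hb hab
    rcases hcase a ha with rfl | ha' | ha' <;> rcases hcase b hb with rfl | hb' | hb'
    · rfl
    · rw [hFq, hFA b hb'] at hab
      exact absurd (hab ▸ hfA b hb') hyA
    · rw [hFq, hFB b hb'] at hab
      exact absurd (hab ▸ hgB b hb') hyB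
    · rw [hFq, hFA a ha'] at hab
      exact absurd (hab ▸ hfA a ha') hyA
    · rw [hFA a ha', hFA b hb'] at hab
      exact hf1 a ha' b hb' hab
    · rw [hFA a ha', hFB b hb'] at hab
      exact absurd (hab ▸ hgB b hb') (hAB _ (hfA a ha'))
    · rw [hFq, hFB a ha'] at hab
      exact absurd (hab ▸ hgB a ha') hyB
    · rw [hFB a ha', hFA b hb'] at hab
      exact absurd (hab.symm ▸ hgB a ha') (fun h => hAB _ (hfA b hb') (hab ▸ hgB a ha'))
    · rw [hFB a ha', hFB b hb'] at hab
      exact hg1 a ha' b hb' hab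
  · ext v
    rw [Finset.mem_union, Finset.mem_image]
    constructor
    · rintro (h | h)
      · rw [← hf2] at h
        obtain ⟨a, ha, rfl⟩ := Finset.mem_image.1 h
        have h5 := ((hA0 a).1 ha).1
        exact ⟨a, Finset.mem_erase.2 ⟨hne a h5, mem_cl.2 (mem_dc.1 h5).1⟩, hFA a ha⟩
      · rw [← hg2] at h
        obtain ⟨a, ha, rfl⟩ := Finset.mem_image.1 h
        have h5 := ((hB0 a).1 ha).1
        exact ⟨a, Finset.mem_erase.2 ⟨hne a h5, mem_cl.2 (mem_dc.1 h5).1⟩, hFB a ha⟩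
    · rintro ⟨a, ha, rfl⟩
      rw [Finset.mem_erase] at ha
      rcases hcase a ha.2 with h | h | h
      · exact absurd h ha.1
      · left; rw [hFA a h]; exact hfA a h
      · right; rw [hFB a h]; exact hgB a h
  · intro a ha b hb hab
    rcases hcase a ha with rfl | ha' | ha' <;> rcases hcase b hb with rfl | hb' | hb'
    · exact absurd hab (hanti _ _ hab)
    · exact absurd ((hA0 b).1 hb').2 (hanti _ _ hab)
    · rw [hFq, hFB b hb']; exact h4 _ (hgB b hb')
    · rw [hFq, hFA a ha']; exact h3 _ (hfA a ha')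
    · exact absurd hab (hno 0 a ((hA0 a).1 ha').1 b ((hA0 b).1 hb').1)
    · exact absurd hab (hno 0 a ((hA0 a).1 ha').1 b ((hB0 b).1 hb').1)
    · exact absurd hab ((hB0 a).1 ha').2
    · exact absurd hab (hno 0 a ((hB0 a).1 ha').1 b ((hA0 b).1 hb').1)
    · exact absurd hab (hno 0 a ((hB0 a).1 ha').1 b ((hB0 b).1 hb').1)

end GS78
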