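import Pool.Agent.GS78.Cat

/-!
# Gap sliding with a pool: the final theorem for caterpillars
-/

namespace GS78

open Finset

theorem HC_mono {V : Type*} {R : V → V → Prop} {D D' : ℕ → V → Finset V → Prop} {D0 D0' : V → Finset V → Prop}
    {a b : ℕ} {y : V} {S0 : Finset V} {x : ℕ → V} {Q : ℕ → Finset V} (hD : ∀ j p S, D j p S → D' j p S)
    (hD0 : ∀ y S, D0 y S → D0' y S) (h : HC R D D0 a b y S0 x Q) : HC R D' D0' a b y S0 x Q :=
  ⟨hD0 _ _ h.head, h.link, ⟨h.ch.arc, fun i h1 h2 => hD _ _ _ (h.ch.dec i h1 h2), h.ch.inj, h.ch.dis, h.ch.nmem⟩,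
    h.yx, h.yQ, h.Sx, h.SQ⟩

theorem sum_classes {τ : Type*} [Fintype τ] [DecidableEq τ] (m : ℕ) (hm : 1 ≤ m) (q : ℕ → τ) (ι : τ → ℕ)
    (hle : ∀ v, ι v ≤ m) (hidx : ∀ i, i ≤ m → ι (q i) = i) :
    (1 + (dc q ι 0).card) + ∑ j ∈ Finset.Icc 1 m, (1 + (dc q ι j).card) = Fintype.card τ := by
  have h1 : ∀ j, j ≤ m → 1 + (dc q ι j).card = (cl ι j).card := by
    intro j hj
    have : cl ι j = insert (q j) (dc q ι j) := by
      ext v
      rw [Finset.mem_insert, mem_cl, mem_dc]
      constructor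
      · intro hv
        by_cases e : v = q j
        · exact Or.inl e
        · exact Or.inr ⟨hv, e⟩
      · rintro (e | e)
        · rw [e]; exact hidx j hj
        · exact e.1
    rw [this, Finset.card_insert_of_notMem (by rw [mem_dc]; tauto)]
    ring
  have h3 : ∑ j ∈ Finset.Icc 1 m, (1 + (dc q ι j).card) = ∑ j ∈ Finset.Icc 1 m, (cl ι j).card := by
    apply Finset.sum_congr rfl
    intro j hj
    rw [Finset.mem_Icc] at hj
    exact h1 j hj.2
  rw [h1 0 (by omega), h3, ← Finset.card_univ,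
    Finset.card_eq_sum_card_fiberwise (f := ι) (t := Finset.Icc 0 m) (s := Finset.univ)]
  · rw [← Finset.sum_Ioc_add_eq_sum_Icc (by omega : 0 ≤ m)]
    rw [show Finset.Ioc 0 m = Finset.Icc 1 m from by
      ext; simp only [Finset.mem_Ioc, Finset.mem_Icc, Nat.succ_le_iff]]
    rw [add_comm]
    rfl
  · intro v _
    simp only [Finset.coe_Icc, Set.mem_Icc]
    exact ⟨Nat.zero_le _, hle v⟩

theorem emb_cat {V τ : Type*} [Fintype V] [DecidableEq V] [Fintype τ] [DecidableEq τ] {R : V → V → Prop}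
    (hT : Tour R) {E : τ → τ → Prop} (hanti : ∀ a b, E a b → ¬ E b a) (m : ℕ) (q : ℕ → τ) (ι : τ → ℕ)
    (hle : ∀ v, ι v ≤ m) (hidx : ∀ i, i ≤ m → ι (q i) = i)
    (harc : ∀ u v, E u v → ι u = ι v ∨ (u = q (ι u) ∧ v = q (ι u + 1) ∧ ι u + 1 ≤ m))
    (hin : ∀ v, ∀ i, 1 ≤ i → i ≤ m → E v (q i) → ι v ≠ i)
    (hno : ∀ j, ∀ u ∈ dc q ι j, ∀ v ∈ dc q ι j, ¬ E u v) (L : ℕ) (hL : ∀ j, (dc q ι j).card ≤ L)
    (hcard0 : m = 0 → 6 * L + 5 ≤ Fintype.card V)
    (hcard : 1 ≤ m → Fintype.card τ + (14 * L + 11) ≤ Fintype.card V) :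
    ∃ f : τ → V, Function.Injective f ∧ ∀ a b, E a b → R (f a) (f b) := by
  classical
  set A0 : Finset τ := (dc q ι 0).filter (fun v => E v (q 0)) with hA0
  set B0 : Finset τ := (dc q ι 0).filter (fun v => ¬ E v (q 0)) with hB0
  have hA0' : ∀ v, v ∈ A0 ↔ v ∈ dc q ι 0 ∧ E v (q 0) := fun v => by rw [hA0, Finset.mem_filter]
  have hB0' : ∀ v, v ∈ B0 ↔ v ∈ dc q ι 0 ∧ ¬ E v (q 0) := fun v => by rw [hB0, Finset.mem_filter]
  have hAB : A0.card + B0.card = (dc q ι 0).card := Finset.card_filter_add_card_filter_not _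
  have hL0 := hL 0
  rcases Nat.eq_zero_or_pos m with hm | hm
  · obtain ⟨y, S0, s, F, -, -, -, -, h1, -, -, -, -, -⟩ := HDL_ex hT (fun j => (dc q ι j).card) L hL A0.card B0.card
      (by omega) (by omega) 0 (Finset.univ : Finset V) (by rw [Finset.card_univ]; exact hcard0 hm)
    obtain ⟨f, h2, h3, h4, h5⟩ := HL_HH hT hanti hno A0 B0 hA0' hB0' y S0 h1
    have hcl : ∀ v, v ∈ cl ι 0 := by
      intro v
      rw [mem_cl]
      have := hle v
      omega
    exact ⟨f, fun a b hab => h2 a (hcl a) b (hcl b) hab, fun a b hab => h5 a (hcl a) b (hcl b) hab⟩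
  · obtain ⟨y, S0, x, Q, hHC⟩ := main_abs hT (DL_sys R (fun j => (dc q ι j).card) L hL)
      (D0 := HL R A0.card B0.card) (c0 := A0.card + B0.card)
      (fun y S hS => HL_card hT y S hS) (ψ := 6 * L + 5)
      (fun a X hX => HDL_ex hT (fun j => (dc q ι j).card) L hL A0.card B0.card (by omega) (by omega) a X hX) m 1 hm (by
        rw [hAB, sum_classes m hm q ι hle hidx]
        have := hcard hm
        omega)
    exact assemble m q ι hle hidx harc hin (HC_mono (fun j p S h => DL_DD hno j p S h)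
      (fun y S h => HL_HH hT hanti hno A0 B0 hA0' hB0' y S h) hHC)

/-- The theorem for caterpillars. -/
theorem final_cat {k n : ℕ} {R : Fin n → Fin n → Prop} (hT : Tour R) {E : Fin (k + 1) → Fin (k + 1) → Prop}
    (hanti : ∀ a b, E a b → ¬ E b a) (hG : (SimpleGraph.fromRel E).IsTree) (Δ m : ℕ) (q : Fin (m + 1) → Fin (k + 1))
    (hq : Function.Injective q) (hqE : ∀ i : Fin m, E (q i.castSucc) (q i.succ))
    (hin : ∀ (i : Fin m) (v), E v (q i.succ) → v = q i.castSucc)
    (hcat : ∀ u v, E u v → u ∈ Set.range q ∨ v ∈ Set.range q)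
    (hΔ : ∀ v, ((SimpleGraph.fromRel E).neighborSet v).ncard ≤ Δ) (hk : 1 ≤ k)
    (hcard : k + 14 * Δ ≤ n) :
    ∃ f : Fin (k + 1) → Fin n, Function.Injective f ∧ ∀ a b, E a b → R (f a) (f b) := by
  classical
  obtain ⟨ι, hι1, hι2, hι3⟩ := exists_index hG hanti q hq hqE
  set qn : ℕ → Fin (k + 1) := fun j => if hj : j < m + 1 then q ⟨j, hj⟩ else q 0 with hqn
  have hqn' : ∀ i : Fin (m + 1), qn i = q i := by
    intro i
    simp only [hqn, i.isLt, dif_pos]
  have hqn2 : ∀ j (hj : j < m + 1), qn j = q ⟨j, hj⟩ := by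
    intro j hj
    simp only [hqn, hj, dif_pos]
  -- arcs between vertices outside the path do not change the index
  have hrange : ∀ j v, v ∈ dc qn (fun v => (ι v : ℕ)) j → v ∉ Set.range q := by
    rintro j v hv ⟨i, rfl⟩
    rw [mem_dc, hι2] at hv
    apply hv.2
    rw [← hv.1, hqn']
  have hdeg1 : 1 ≤ Δ := by
    have hne : (0 : Fin (k + 1)) ≠ Fin.last k := by
      intro e
      rw [Fin.ext_iff] at e
      simp at e
      omega
    obtain ⟨w⟩ := hG.1.preconnected (0 : Fin (k + 1)) (Fin.last k)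
    have hnn : ¬ w.Nil := SimpleGraph.Walk.not_nil_of_ne hne
    have h1 : w.snd ∈ (SimpleGraph.fromRel E).neighborSet 0 := w.adj_snd hnn
    have h2 : 0 < ((SimpleGraph.fromRel E).neighborSet 0).ncard :=
      (Set.ncard_pos (Set.toFinite _)).2 ⟨_, h1⟩
    exact lt_of_lt_of_le h2 (hΔ 0)
  -- vertices outside the path are adjacent to the path vertex of their index
  have hnb : ∀ (i : Fin (m + 1)) v, v ∈ dc qn (fun v => (ι v : ℕ)) i → v ∈ (SimpleGraph.fromRel E).neighborSet (q i) := by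
    intro i v hv
    have hvr := hrange _ v hv
    rw [mem_dc] at hv
    have hiv : ι v = i := Fin.ext hv.1
    have hne : v ≠ q (ι v) := by
      rw [hiv, ← hqn']
      exact hv.2
    obtain ⟨w⟩ := (hι1 v).symm
    have hnn : ¬ w.Nil := SimpleGraph.Walk.not_nil_of_ne hne
    have h1 := w.adj_snd hnn
    rw [SimpleGraph.deleteEdges_adj] at h1
    have h2 : ι v = ι w.snd ∧ w.snd ∈ Set.range q := by
      rcases h1.1.2 with h | h
      · refine ⟨?_, (hcat _ _ h).resolve_left hvr⟩
        rcases hι3 _ _ h with h3 | ⟨i, h3, -⟩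
        · exact h3
        · exact absurd ⟨_, h3.symm⟩ hvr
      · refine ⟨?_, (hcat _ _ h).resolve_right hvr⟩
        rcases hι3 _ _ h with h3 | ⟨i, -, h3⟩
        · exact h3.symm
        · exact absurd ⟨_, h3.symm⟩ hvr
    obtain ⟨h3, j, hj⟩ := h2
    have h4 : j = i := by
      rw [← hiv, h3, ← hj, hι2]
    rw [SimpleGraph.mem_neighborSet, ← h4, hj]
    exact h1.1.symm
  have hbound : ∀ L, (∀ i : Fin (m + 1), (dc qn (fun v => (ι v : ℕ)) i).card ≤ L) →
      ∀ j, (dc qn (fun v => (ι v : ℕ)) j).card ≤ L := by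
    intro L hL j
    by_cases hj : j < m + 1
    · exact hL ⟨j, hj⟩
    · have : dc qn (fun v => (ι v : ℕ)) j = ∅ := by
        rw [Finset.eq_empty_iff_forall_notMem]
        intro v hv
        rw [mem_dc] at hv
        have := (ι v).isLt
        omega
      rw [this]
      simp
  have hmain : ∀ L, (∀ j, (dc qn (fun v => (ι v : ℕ)) j).card ≤ L) → (m = 0 → 6 * L + 5 ≤ n) →
      (1 ≤ m → k + 1 + (14 * L + 11) ≤ n) →
      ∃ f : Fin (k + 1) → Fin n, Function.Injective f ∧ ∀ a b, E a b → R (f a) (f b) := by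
    intro L hL h0 h1
    refine emb_cat hT hanti m qn (fun v => (ι v : ℕ)) (fun v => ?_) ?_ ?_ ?_ ?_ L hL (by simpa using h0)
      (by simpa using h1)
    · have := (ι v).isLt
      omega
    · intro i hi
      rw [hqn2 i (by omega), hι2]
    · intro u v huv
      rcases hι3 u v huv with h1 | ⟨i, h1, h2⟩
      · left
        rw [h1]
      · right
        have e1 : ι u = i.castSucc := by rw [h1, hι2]
        have e2 : ((ι u : Fin (m + 1)) : ℕ) = i := by rw [e1]; simp
        have e3 : ((ι u : Fin (m + 1)) : ℕ) + 1 = (i.succ : Fin (m + 1)) := by rw [e2]; simp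
        refine ⟨?_, ?_, ?_⟩
        · rw [hqn', e1]
          exact h1
        · rw [e3, hqn']
          exact h2
        · rw [e2]
          have := i.isLt
          omega
    · intro v i hi1 him hv
      rw [hqn2 i (by omega)] at hv
      set i' : Fin m := ⟨i - 1, by omega⟩ with hi'
      have e1 : (⟨i, by omega⟩ : Fin (m + 1)) = i'.succ := by
        ext
        simp [hi']
        omega
      rw [e1] at hv
      have := hin i' v hv
      rw [this, hι2]
      simp only [hi', Fin.val_castSucc]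
      omega
    · intro j u hu v hv huv
      rcases hcat u v huv with h | h
      · exact hrange j u hu h
      · exact hrange j v hv h
  rcases Nat.eq_zero_or_pos m with hm | hm
  · refine hmain Δ (hbound Δ ?_) (fun _ => by omega) (fun h => by omega)
    intro i
    refine le_trans ?_ (hΔ (q i))
    rw [← Set.ncard_coe_finset]
    exact Set.ncard_le_ncard (fun v hv => hnb i v hv) (Set.toFinite _)
  · refine hmain (Δ - 1) (hbound (Δ - 1) ?_) (fun h => by omega) (fun _ => by omega)
    intro i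
    -- a neighbour of `q i` on the path
    have hex : ∃ j : Fin (m + 1), q j ∈ (SimpleGraph.fromRel E).neighborSet (q i) := by
      by_cases hi : (i : ℕ) < m
      · refine ⟨(⟨i, hi⟩ : Fin m).succ, ?_⟩
        have h1 := hqE ⟨i, hi⟩
        have e1 : (⟨i, hi⟩ : Fin m).castSucc = i := by ext; simp
        rw [e1] at h1
        exact ⟨fun e => by rw [← e] at h1; exact hanti _ _ h1 h1, Or.inl h1⟩
      · have hi2 := i.isLt
        set i' : Fin m := ⟨(i : ℕ) - 1, by omega⟩ with hi'
        have h1 := hqE i'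
        have e1 : i'.succ = i := by ext; simp [hi']; omega
        rw [e1] at h1
        exact ⟨i'.castSucc, fun e => by rw [← e] at h1; exact hanti _ _ h1 h1, Or.inr h1⟩
    obtain ⟨j, hj⟩ := hex
    have hjn : q j ∉ dc qn (fun v => (ι v : ℕ)) i := fun h => hrange _ _ h ⟨j, rfl⟩
    have h1 : (insert (q j) (dc qn (fun v => (ι v : ℕ)) i)).card ≤ Δ := by
      refine le_trans ?_ (hΔ (q i))
      rw [← Set.ncard_coe_finset]
      refine Set.ncard_le_ncard ?_ (Set.toFinite _)
      intro v hv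
      rw [Finset.coe_insert, Set.mem_insert_iff] at hv
      rcases hv with rfl | hv
      · exact hj
      · exact hnb i v hv
    rw [Finset.card_insert_of_notMem hjn] at h1
    omega

end GS78
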