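import Pool.Agent.GS78.Defs

/-!
# Gap sliding with a pool: the core lemma
-/

namespace GS78

open Finset

variable {V : Type*} [DecidableEq V]

/-- the working pool at time `k` -/
def Wk (W0 : Finset V) (S S' : ℕ → Finset V) (k : ℕ) : Finset V :=
  (W0 ∪ (Finset.Icc 1 k).biUnion S) \ (Finset.range k).biUnion S'

theorem mem_Wk {W0 : Finset V} {S S' : ℕ → Finset V} {k : ℕ} {v : V} :
    v ∈ Wk W0 S S' k ↔ (v ∈ W0 ∨ ∃ i, 1 ≤ i ∧ i ≤ k ∧ v ∈ S i) ∧ ∀ t, t < k → v ∉ S' t := by
  unfold Wk
  simp only [Finset.mem_sdiff, Finset.mem_union, Finset.mem_biUnion, Finset.mem_Icc, Finset.mem_range, not_exists,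
    not_and]
  constructor
  · rintro ⟨h1, h2⟩
    refine ⟨?_, h2⟩
    rcases h1 with h | ⟨i, ⟨h3, h4⟩, h5⟩
    · exact Or.inl h
    · exact Or.inr ⟨i, h3, h4, h5⟩
  · rintro ⟨h1, h2⟩
    refine ⟨?_, h2⟩
    rcases h1 with h | ⟨i, h3, h4, h5⟩
    · exact Or.inl h
    · exact Or.inr ⟨i, ⟨h3, h4⟩, h5⟩

structure St (D : ℕ → V → Finset V → Prop) (p : ℕ → V) (S : ℕ → Finset V) (W0 : Finset V) (S' : ℕ → Finset V)
    (i : ℕ) : Prop where
  dec : ∀ t, t < i → D t (p (t + 1)) (S' t)
  sub : ∀ t, t < i → S' t ⊆ Wk W0 S S' t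

structure Ctx (R : V → V → Prop) (D : ℕ → V → Finset V → Prop) (c : ℕ → ℕ) (φ C κ m : ℕ) (p : ℕ → V)
    (S : ℕ → Finset V) (Z W0 : Finset V) : Prop where
  tour : Tour R
  sys : DecSys R D c φ C κ
  hm : 1 ≤ m
  ch : Chain R D 1 m p S
  zw : Disjoint Z W0
  zS : ∀ i, 1 ≤ i → i ≤ m → Disjoint (S i) Z
  wS : ∀ i, 1 ≤ i → i ≤ m → Disjoint (S i) W0
  zp : ∀ i, 1 ≤ i → i ≤ m → p i ∉ Z
  wp : ∀ i, 1 ≤ i → i ≤ m → p i ∉ W0
  z1 : ∀ z ∈ Z, R (p 1) z
  w1 : ∀ z ∈ W0, R (p 1) z
  zc : κ * C + 3 * φ ≤ Z.card
  wc : 3 * φ + C ≤ W0.card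

def Goal (R : V → V → Prop) (D : ℕ → V → Finset V → Prop) (m : ℕ) (p : ℕ → V)
    (S : ℕ → Finset V) (Z W0 : Finset V) : Prop :=
  ∃ (x : ℕ → V) (Q : ℕ → Finset V), Chain R D 0 m x Q ∧ x 0 = p 1 ∧
    ∀ v, (∃ i, i ≤ m ∧ (v = x i ∨ v ∈ Q i)) → v ∈ Z ∨ v ∈ W0 ∨ ∃ i, 1 ≤ i ∧ i ≤ m ∧ (v = p i ∨ v ∈ S i)

theorem insert_goal {R : V → V → Prop} {D : ℕ → V → Finset V → Prop} {c : ℕ → ℕ} {φ C κ m : ℕ} {p : ℕ → V}
    {S : ℕ → Finset V} {Z W0 : Finset V} (h : Ctx R D c φ C κ m p S Z W0) {S' : ℕ → Finset V} {k : ℕ} (hk1 : 1 ≤ k)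
    (hkm : k ≤ m) (hst : St D p S W0 S' k) (s : V) (hs : s ∈ Z ∨ s ∈ Wk W0 S S' k) (F' : Finset V)
    (hF : D k s F') (Sst : ℕ → Finset V) (hSst : ∀ t, k < t → t ≤ m → D t (p t) (Sst t))
    (hSsub : ∀ t, k < t → t ≤ m → Sst t ⊆ S t ∪ Z)
    (hSdis : ∀ t t', k < t → t ≤ m → k < t' → t' ≤ m → t ≠ t' → Disjoint (Sst t) (Sst t'))
    (hFsub : ∀ f ∈ F', f ∈ Z ∨ f ∈ Wk W0 S S' k ∨ ∃ t, k < t ∧ t ≤ m ∧ f ∈ S t)
    (hFd : ∀ t, k < t → t ≤ m → Disjoint F' (Sst t))
    (hsd : ∀ t, k < t → t ≤ m → s ∉ Sst t) (hRs : R (p k) s) (hRs' : k < m → R s (p (k + 1))) :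
    Goal R D m p S Z W0 := by
  -- basic facts
  have hpS : ∀ i j, 1 ≤ i → i ≤ m → 1 ≤ j → j ≤ m → p i ∉ S j := h.ch.nmem
  have hleafW : ∀ v k', k' ≤ m → v ∈ Wk W0 S S' k' → ∀ i, 1 ≤ i → i ≤ m → v ≠ p i := by
    intro v k' hk' hv i hi1 him e
    subst e
    rcases (mem_Wk.1 hv).1 with h1 | ⟨j, hj1, hjk, hj⟩
    · exact h.wp i hi1 him h1
    · exact hpS i j hi1 him hj1 (hjk.trans hk') hj
  have hsne : ∀ i, 1 ≤ i → i ≤ m → s ≠ p i := by
    intro i hi1 him e
    rcases hs with h1 | h1
    · exact h.zp i hi1 him (e ▸ h1)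
    · exact hleafW s k hkm h1 i hi1 him e
  -- location of the new sets
  have hS'loc : ∀ t, t < k → ∀ v ∈ S' t, v ∈ W0 ∨ ∃ i, 1 ≤ i ∧ i ≤ t ∧ v ∈ S i := by
    intro t ht v hv
    exact (mem_Wk.1 (hst.sub t ht hv)).1
  have hWZ : ∀ v k', k' ≤ m → v ∈ Wk W0 S S' k' → v ∉ Z := by
    intro v k' hk' hv hz
    rcases (mem_Wk.1 hv).1 with h1 | ⟨j, hj1, hjk, hj⟩
    · exact Finset.disjoint_left.1 h.zw hz h1
    · exact Finset.disjoint_left.1 (h.zS j hj1 (hjk.trans hk')) hj hz
  have hS'Z : ∀ t, t < k → ∀ v ∈ S' t, v ∉ Z := by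
    intro t ht v hv
    exact hWZ v t (by omega) (hst.sub t ht hv)
  have hS'S : ∀ t, t < k → ∀ v ∈ S' t, ∀ u, k < u → u ≤ m → v ∉ S u := by
    intro t ht v hv u hu hum hvu
    rcases hS'loc t ht v hv with h1 | ⟨j, hj1, hjk, hj⟩
    · exact Finset.disjoint_left.1 (h.wS u (by omega) hum) hvu h1
    · exact Finset.disjoint_left.1 (h.ch.dis j u hj1 (by omega) (by omega) hum (by omega)) hj hvu
  -- the new chain
  refine ⟨fun i => if i < k then p (i + 1) else if i = k then s else p i,
    fun i => if i < k then S' i else if i = k then F' else Sst i, ⟨?_, ?_, ?_, ?_, ?_⟩, ?_, ?_⟩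
  · -- arcs
    intro i _ him
    rcases lt_trichotomy (i + 1) k with h1 | h1 | h1
    · have h2 : i < k := by omega
      simp only [h1, h2, if_true]
      exact h.ch.arc (i + 1) (by omega) (by omega)
    · have h2 : i < k := by omega
      have h3 : ¬ (i + 1 < k) := by omega
      simp only [h1, h2, if_true, lt_irrefl, if_false]
      exact hRs
    · rcases Nat.lt_or_ge k i with h2 | h2
      · have h3 : ¬ (i < k) := by omega
        have h4 : ¬ (i = k) := by omega
        have h5 : ¬ (i + 1 < k) := by omega
        have h6 : ¬ (i + 1 = k) := by omega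
        simp only [h3, h4, h5, h6, if_false]
        exact h.ch.arc i (by omega) him
      · have h3 : i = k := by omega
        subst h3
        have h5 : ¬ (i + 1 < i) := by omega
        have h6 : ¬ (i + 1 = i) := by omega
        simp only [lt_irrefl, h5, h6, if_false, if_true]
        exact hRs' him
  · -- decorations
    intro i _ him
    rcases lt_trichotomy i k with h1 | h1 | h1
    · simp only [h1, if_true]
      exact hst.dec i h1
    · subst h1
      simp only [lt_irrefl, if_false, if_true]
      exact hF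
    · have h3 : ¬ (i < k) := by omega
      have h4 : ¬ (i = k) := by omega
      simp only [h3, h4, if_false]
      exact hSst i h1 him
  · -- injectivity
    intro i j _ him _ hjm hij
    have key : ∀ i, i ≤ m → (if i < k then p (i + 1) else if i = k then s else p i) = s → i = k := by
      intro i him he
      by_contra hne
      rcases Nat.lt_or_ge i k with h1 | h1
      · simp only [h1, if_true] at he
        exact hsne (i + 1) (by omega) (by omega) he.symm
      · have h3 : ¬ (i < k) := by omega
        simp only [h3, hne, if_false] at he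
        exact hsne i (by omega) him he.symm
    by_cases hik : i = k
    · have : (if i < k then p (i + 1) else if i = k then s else p i) = s := by
        subst hik; simp
      rw [this] at hij
      rw [hik, key j hjm hij.symm]
    · by_cases hjk : j = k
      · have : (if j < k then p (j + 1) else if j = k then s else p j) = s := by
          subst hjk; simp
        rw [this] at hij
        rw [hjk, key i him hij]
      · rcases Nat.lt_or_ge i k with h1 | h1
        · rcases Nat.lt_or_ge j k with h2 | h2
          · simp only [h1, h2, if_true] at hij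
            have := h.ch.inj (i + 1) (j + 1) (by omega) (by omega) (by omega) (by omega) hij
            omega
          · have h3 : ¬ (j < k) := by omega
            simp only [h1, h3, hjk, if_true, if_false] at hij
            have := h.ch.inj (i + 1) j (by omega) (by omega) (by omega) (by omega) hij
            omega
        · have h3 : ¬ (i < k) := by omega
          rcases Nat.lt_or_ge j k with h2 | h2
          · simp only [h3, h2, hik, if_true, if_false] at hij
            have := h.ch.inj i (j + 1) (by omega) (by omega) (by omega) (by omega) hij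
            omega
          · have h4 : ¬ (j < k) := by omega
            simp only [h3, h4, hik, hjk, if_false] at hij
            exact h.ch.inj i j (by omega) (by omega) (by omega) (by omega) hij
  · -- disjointness
    have key : ∀ i j, i ≤ m → j ≤ m → i < j →
        Disjoint (if i < k then S' i else if i = k then F' else Sst i)
          (if j < k then S' j else if j = k then F' else Sst j) := by
      intro i j him hjm hij
      rcases lt_trichotomy j k with h1 | h1 | h1
      · have h2 : i < k := by omega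
        simp only [h1, h2, if_true]
        rw [Finset.disjoint_left]
        intro v hv hv'
        exact (mem_Wk.1 (hst.sub j h1 hv')).2 i hij hv
      · subst h1
        simp only [hij, if_true, lt_irrefl, if_false]
        rw [Finset.disjoint_left]
        intro v hv hv'
        rcases hFsub v hv' with h2 | h2 | ⟨t, ht1, ht2, ht3⟩
        · exact hS'Z i hij v hv h2
        · exact (mem_Wk.1 h2).2 i hij hv
        · exact hS'S i hij v hv t ht1 ht2 ht3
      · have h3 : ¬ (j < k) := by omega
        have h4 : ¬ (j = k) := by omega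
        rcases lt_trichotomy i k with h5 | h5 | h5
        · simp only [h3, h4, h5, if_true, if_false]
          rw [Finset.disjoint_left]
          intro v hv hv'
          rcases Finset.mem_union.1 (hSsub j h1 hjm hv') with h2 | h2
          · exact hS'S i h5 v hv j h1 hjm h2
          · exact hS'Z i h5 v hv h2
        · subst h5
          simp only [h3, h4, lt_irrefl, if_true, if_false]
          exact hFd j h1 hjm
        · have h6 : ¬ (i < k) := by omega
          have h7 : ¬ (i = k) := by omega
          simp only [h3, h4, h6, h7, if_false]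
          exact hSdis i j h5 him h1 hjm (by omega)
    intro i j _ him _ hjm hij
    rcases Nat.lt_or_ge i j with h1 | h1
    · exact key i j him hjm h1
    · exact (key j i hjm him (by omega)).symm
  · -- spine vertices are not in decorations
    intro i j _ him _ hjm
    have hQp : ∀ j, j ≤ m → ∀ i, 1 ≤ i → i ≤ m → p i ∉ (if j < k then S' j else if j = k then F' else Sst j) := by
      intro j hjm i hi1 him hmem
      rcases lt_trichotomy j k with h1 | h1 | h1
      · simp only [h1, if_true] at hmem
        exact hleafW (p i) j (by omega) (hst.sub j h1 hmem) i hi1 him rfl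
      · subst h1
        simp only [lt_irrefl, if_true, if_false] at hmem
        rcases hFsub _ hmem with h2 | h2 | ⟨t, ht1, ht2, ht3⟩
        · exact h.zp i hi1 him h2
        · exact hleafW (p i) j hkm h2 i hi1 him rfl
        · exact hpS i t hi1 him (by omega) ht2 ht3
      · have h3 : ¬ (j < k) := by omega
        have h4 : ¬ (j = k) := by omega
        simp only [h3, h4, if_false] at hmem
        rcases Finset.mem_union.1 (hSsub j h1 hjm hmem) with h2 | h2
        · exact hpS i j hi1 him (by omega) hjm h2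
        · exact h.zp i hi1 him h2
    have hQs : ∀ j, j ≤ m → s ∉ (if j < k then S' j else if j = k then F' else Sst j) := by
      intro j hjm hmem
      rcases lt_trichotomy j k with h1 | h1 | h1
      · simp only [h1, if_true] at hmem
        rcases hs with h2 | h2
        · exact hS'Z j h1 s hmem h2
        · exact (mem_Wk.1 h2).2 j h1 hmem
      · subst h1
        simp only [lt_irrefl, if_true, if_false] at hmem
        exact h.tour.irr s (h.sys.out j s F' hF s hmem)
      · have h3 : ¬ (j < k) := by omega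
        have h4 : ¬ (j = k) := by omega
        simp only [h3, h4, if_false] at hmem
        exact hsd j h1 hjm hmem
    rcases lt_trichotomy i k with h1 | h1 | h1
    · have e : (if i < k then p (i + 1) else if i = k then s else p i) = p (i + 1) := by simp [h1]
      rw [e]
      exact hQp j hjm (i + 1) (by omega) (by omega)
    · have e : (if i < k then p (i + 1) else if i = k then s else p i) = s := by subst h1; simp
      rw [e]
      exact hQs j hjm
    · have h3 : ¬ (i < k) := by omega
      have h4 : ¬ (i = k) := by omega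
      have e : (if i < k then p (i + 1) else if i = k then s else p i) = p i := by simp [h3, h4]
      rw [e]
      exact hQp j hjm i (by omega) him
  · have : 0 < k := by omega
    simp [this]
  · -- coverage
    rintro v ⟨i, him, hv⟩
    have hW : ∀ k', k' ≤ m → v ∈ Wk W0 S S' k' → v ∈ Z ∨ v ∈ W0 ∨ ∃ i, 1 ≤ i ∧ i ≤ m ∧ (v = p i ∨ v ∈ S i) := by
      intro k' hk' hvk
      rcases (mem_Wk.1 hvk).1 with h1 | ⟨j, hj1, hjk, hj⟩
      · exact Or.inr (Or.inl h1)
      · exact Or.inr (Or.inr ⟨j, hj1, hjk.trans hk', Or.inr hj⟩)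
    rcases lt_trichotomy i k with h1 | h1 | h1
    · simp only [h1, if_true] at hv
      rcases hv with hv | hv
      · exact Or.inr (Or.inr ⟨i + 1, by omega, by omega, Or.inl hv⟩)
      · exact hW i (by omega) (hst.sub i h1 hv)
    · subst h1
      simp only [lt_irrefl, if_true, if_false] at hv
      rcases hv with hv | hv
      · subst hv
        rcases hs with h2 | h2
        · exact Or.inl h2
        · exact hW i hkm h2
      · rcases hFsub v hv with h2 | h2 | ⟨t, ht1, ht2, ht3⟩
        · exact Or.inl h2
        · exact hW i hkm h2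
        · exact Or.inr (Or.inr ⟨t, by omega, ht2, Or.inr ht3⟩)
    · have h3 : ¬ (i < k) := by omega
      have h4 : ¬ (i = k) := by omega
      simp only [h3, h4, if_false] at hv
      rcases hv with hv | hv
      · exact Or.inr (Or.inr ⟨i, by omega, him, Or.inl hv⟩)
      · rcases Finset.mem_union.1 (hSsub i h1 him hv) with h2 | h2
        · exact Or.inr (Or.inr ⟨i, by omega, him, Or.inr h2⟩)
        · exact Or.inl h2

end GS78
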