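import Mathlib

/-!
# Gap sliding with a pool: definitions and basic facts
-/

namespace GS78

open Finset

/-- `R` is a tournament. -/
structure Tour {V : Type*} (R : V → V → Prop) : Prop where
  irr : ∀ a, ¬ R a a
  tot : ∀ a b, a ≠ b → R a b ∨ R b a
  asym : ∀ a b, R a b → ¬ R b a

/-- A system of out-decorations. `D j q S` says that `S` is (the vertex set of) a decoration of type `j` hanging
below the vertex `q`. -/
structure DecSys {V : Type*} [DecidableEq V] (R : V → V → Prop) (D : ℕ → V → Finset V → Prop) (c : ℕ → ℕ)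
    (φ C κ : ℕ) : Prop where
  pos : 1 ≤ φ
  out : ∀ j q S, D j q S → ∀ s ∈ S, R q s
  card : ∀ j q S, D j q S → S.card = c j
  cle : ∀ j, c j ≤ C
  ex : ∀ j q X, (∀ x ∈ X, R q x) → φ ≤ X.card → ∃ S, S ⊆ X ∧ D j q S
  rep : ∀ j q S F X, D j q S → (∀ x ∈ X, R q x) → φ ≤ X.card → Disjoint S X → (S ∩ F).Nonempty →
    ∃ S', S' ⊆ (S \ F) ∪ X ∧ D j q S' ∧ (S' ∩ X).card ≤ κ * (S ∩ F).card

/-- A chain of the types `a, a+1, ..., b`: a directed path `x a → ... → x b` with disjoint decorations. -/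
structure Chain {V : Type*} (R : V → V → Prop) (D : ℕ → V → Finset V → Prop) (a b : ℕ) (x : ℕ → V)
    (Q : ℕ → Finset V) : Prop where
  arc : ∀ i, a ≤ i → i < b → R (x i) (x (i + 1))
  dec : ∀ i, a ≤ i → i ≤ b → D i (x i) (Q i)
  inj : ∀ i j, a ≤ i → i ≤ b → a ≤ j → j ≤ b → x i = x j → i = j
  dis : ∀ i j, a ≤ i → i ≤ b → a ≤ j → j ≤ b → i ≠ j → Disjoint (Q i) (Q j)
  nmem : ∀ i j, a ≤ i → i ≤ b → a ≤ j → j ≤ b → x i ∉ Q j

theorem exists_high {V : Type*} [DecidableEq V] {R : V → V → Prop} [DecidableRel R] (hT : Tour R) (n : ℕ) (hn : 1 ≤ n)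
    (Y : Finset V) (hY : 2 * n ≤ Y.card) : ∃ v ∈ Y, n ≤ (Y.filter (fun w => R v w)).card := by
  classical
  by_contra hcon
  push Not at hcon
  have h1 : ∑ v ∈ Y, (Y.filter (fun w => R v w)).card = ∑ v ∈ Y, (Y.filter (fun w => R w v)).card := by
    simp only [Finset.card_filter]
    rw [Finset.sum_comm]
  have h2 : ∀ v ∈ Y, (Y.filter (fun w => R v w)).card + (Y.filter (fun w => R w v)).card = Y.card - 1 := by
    intro v hv
    rw [← Finset.card_union_of_disjoint]
    · have : (Y.filter (fun w => R v w)) ∪ (Y.filter (fun w => R w v)) = Y.erase v := by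
        ext w
        simp only [Finset.mem_union, Finset.mem_filter, Finset.mem_erase]
        constructor
        · rintro (⟨hw, h⟩ | ⟨hw, h⟩)
          · exact ⟨fun e => hT.irr v (e ▸ h), hw⟩
          · exact ⟨fun e => hT.irr v (e ▸ h), hw⟩
        · rintro ⟨hne, hw⟩
          rcases hT.tot v w (Ne.symm hne) with h | h
          · exact Or.inl ⟨hw, h⟩
          · exact Or.inr ⟨hw, h⟩
      rw [this, Finset.card_erase_of_mem hv]
    · rw [Finset.disjoint_left]
      intro w hw hw'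
      simp only [Finset.mem_filter] at hw hw'
      exact hT.asym v w hw.2 hw'.2
  have h3 : ∑ v ∈ Y, (Y.filter (fun w => R v w)).card + ∑ v ∈ Y, (Y.filter (fun w => R w v)).card
      = Y.card * (Y.card - 1) := by
    rw [← Finset.sum_add_distrib, Finset.sum_congr rfl h2, Finset.sum_const, smul_eq_mul]
  have h4 : ∑ v ∈ Y, (Y.filter (fun w => R v w)).card ≤ Y.card * (n - 1) := by
    have : ∀ v ∈ Y, (Y.filter (fun w => R v w)).card ≤ n - 1 := fun v hv => by
      have := hcon v hv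
      omega
    calc _ ≤ ∑ _v ∈ Y, (n - 1) := Finset.sum_le_sum this
      _ = Y.card * (n - 1) := by rw [Finset.sum_const, smul_eq_mul]
  have h5 : Y.card * (Y.card - 1) ≤ Y.card * (2 * (n - 1)) := by
    have : Y.card * (2 * (n - 1)) = 2 * (Y.card * (n - 1)) := by ring
    omega
  have h6 : Y.card - 1 ≤ 2 * (n - 1) := Nat.le_of_mul_le_mul_left h5 (by omega)
  omega

end GS78
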