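import Pool.Agent.GS78.CatFinal

/-!
# A linear additive bound for caterpillars with a directed spine and out-leaves

Every tournament on `k + 14 * Δ` vertices contains every oriented caterpillar with `k ≥ 1` edges and maximum degree at
most `Δ` whose spine is a directed path `q 0 → q 1 → ... → q m` and whose leaves at `q 1, ..., q m` are out-leaves
(the leaves at `q 0` are arbitrary), and also all the reversed caterpillars.
-/

namespace Pool.Agent.Results.MP_ae3412_co.DirectedCaterpillar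

theorem result : ∀ Δ k : ℕ, 1 ≤ k → ∀ R : Fin (k + 14 * Δ) → Fin (k + 14 * Δ) → Prop,
    (∀ a, ¬ R a a) → (∀ a b, a ≠ b → R a b ∨ R b a) → (∀ a b, R a b → ¬ R b a) →
    ∀ E : Fin (k + 1) → Fin (k + 1) → Prop,
      (∀ a b, E a b → ¬ E b a) →
      (SimpleGraph.fromRel E).IsTree →
      (∀ v, ((SimpleGraph.fromRel E).neighborSet v).ncard ≤ Δ) →
      ∀ (m : ℕ) (q : Fin (m + 1) → Fin (k + 1)), Function.Injective q →
      (∀ u v, E u v → u ∈ Set.range q ∨ v ∈ Set.range q) →
      (((∀ i : Fin m, E (q i.castSucc) (q i.succ)) ∧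
          ∀ (i : Fin m) (v : Fin (k + 1)), E v (q i.succ) → v = q i.castSucc) ∨
        ((∀ i : Fin m, E (q i.succ) (q i.castSucc)) ∧
          ∀ (i : Fin m) (v : Fin (k + 1)), E (q i.succ) v → v = q i.castSucc)) →
      ∃ f : Fin (k + 1) → Fin (k + 14 * Δ), Function.Injective f ∧ ∀ a b, E a b → R (f a) (f b) := by
  intro Δ k hk R h1 h2 h3 E h4 h5 hΔ m q hq hcat hor
  rcases hor with ⟨ha, hb⟩ | ⟨ha, hb⟩
  · exact GS78.final_cat ⟨h1, h2, h3⟩ h4 h5 Δ m q hq ha hb hcat hΔ hk (le_refl _)
  · have hG : SimpleGraph.fromRel (fun a b => E b a) = SimpleGraph.fromRel E := by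
      ext a b
      simp only [SimpleGraph.fromRel_adj]
      tauto
    obtain ⟨f, hf1, hf2⟩ := GS78.final_cat (R := fun a b => R b a) (E := fun a b => E b a)
      ⟨h1, fun a b hab => h2 b a hab.symm, fun a b hab => h3 b a hab⟩ (fun a b hab => h4 b a hab)
      (by rw [hG]; exact h5) Δ m q hq ha hb (fun u v huv => (hcat v u huv).symm) (by rw [hG]; exact hΔ) hk (le_refl _)
    exact ⟨f, hf1, fun a b hab => hf2 b a hab⟩

end Pool.Agent.Results.MP_ae3412_co.DirectedCaterpillar
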