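import Pool.Agent.GS78.Acyc

/-!
# Gap sliding with a pool: cutting an oriented tree along a directed path
-/

namespace GS78

open SimpleGraph

/-- the edges of the path `q` -/
def pathEdges {τ : Type*} {m : ℕ} (q : Fin (m + 1) → τ) : Set (Sym2 τ) :=
  {e | ∃ i : Fin m, e = s(q i.castSucc, q i.succ)}

theorem reach_exists {τ : Type*} {E : τ → τ → Prop} (hG : (SimpleGraph.fromRel E).Connected) {m : ℕ}
    (q : Fin (m + 1) → τ) (v : τ) :
    ∃ i, ((SimpleGraph.fromRel E).deleteEdges (pathEdges q)).Reachable (q i) v := by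
  obtain ⟨w⟩ := hG.preconnected (q 0) v
  have key : ∀ a b : τ, (SimpleGraph.fromRel E).Walk a b →
      (∃ i, ((SimpleGraph.fromRel E).deleteEdges (pathEdges q)).Reachable (q i) a) →
      ∃ i, ((SimpleGraph.fromRel E).deleteEdges (pathEdges q)).Reachable (q i) b := by
    intro a b w
    induction w with
    | nil => exact id
    | @cons a c b hac w ih =>
      rintro ⟨i, hi⟩
      apply ih
      by_cases he : s(a, c) ∈ pathEdges q
      · obtain ⟨j, hj⟩ := he
        rw [Sym2.eq_iff] at hj
        rcases hj with ⟨-, h2⟩ | ⟨-, h2⟩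
        · exact ⟨j.succ, by rw [h2]⟩
        · exact ⟨j.castSucc, by rw [h2]⟩
      · refine ⟨i, hi.trans (Adj.reachable ?_)⟩
        rw [deleteEdges_adj]
        exact ⟨hac, he⟩
  exact key _ _ w ⟨0, Reachable.refl _⟩

theorem reach_unique {τ : Type*} {E : τ → τ → Prop} (hG : (SimpleGraph.fromRel E).IsAcyclic) {m : ℕ}
    (q : Fin (m + 1) → τ) (hq : Function.Injective q) (hqE : ∀ i : Fin m, E (q i.castSucc) (q i.succ))
    (i j : Fin (m + 1)) (hij : i < j)
    (hr : ((SimpleGraph.fromRel E).deleteEdges (pathEdges q)).Reachable (q i) (q j)) : False := by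
  have him : (i : ℕ) < m := by
    have := j.isLt
    have : (i : ℕ) < j := hij
    omega
  set i' : Fin m := ⟨i, him⟩ with hi'
  have hic : i'.castSucc = i := by ext; simp [hi']
  have hne : q i'.castSucc ≠ q i'.succ := by
    intro e
    have := hq e
    rw [Fin.ext_iff] at this
    simp at this
  have hadj : (SimpleGraph.fromRel E).Adj (q i'.castSucc) (q i'.succ) := ⟨hne, Or.inl (hqE i')⟩
  have hbr := isAcyclic_iff_forall_adj_isBridge.1 hG hadj
  rw [isBridge_iff] at hbr
  apply hbr
  -- from `q i` to `q j`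
  have h1 : ((SimpleGraph.fromRel E).deleteEdges {s(q i'.castSucc, q i'.succ)}).Reachable (q i) (q j) := by
    refine hr.mono ?_
    apply deleteEdges_anti
    rintro e rfl
    exact ⟨i', rfl⟩
  -- from `q (i+1)` to `q j`
  have h2 : ∀ t : ℕ, ∀ ht : (i : ℕ) + 1 + t < m + 1,
      ((SimpleGraph.fromRel E).deleteEdges {s(q i'.castSucc, q i'.succ)}).Reachable (q i'.succ)
        (q ⟨(i : ℕ) + 1 + t, ht⟩) := by
    intro t
    induction t with
    | zero =>
      intro ht
      have : (⟨(i : ℕ) + 1 + 0, ht⟩ : Fin (m + 1)) = i'.succ := by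
        ext; simp [hi']
      rw [this]
    | succ t ih =>
      intro ht
      refine (ih (by omega)).trans (Adj.reachable ?_)
      rw [deleteEdges_adj]
      set s : Fin m := ⟨(i : ℕ) + 1 + t, by omega⟩ with hs
      have e1 : (⟨(i : ℕ) + 1 + t, by omega⟩ : Fin (m + 1)) = s.castSucc := by ext; simp [hs]
      have e2 : (⟨(i : ℕ) + 1 + (t + 1), ht⟩ : Fin (m + 1)) = s.succ := by ext; simp [hs]; omega
      rw [e1, e2]
      refine ⟨⟨?_, Or.inl (hqE s)⟩, ?_⟩
      · intro e
        have := hq e
        rw [Fin.ext_iff] at this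
        simp at this
      · intro e
        rw [Set.mem_singleton_iff, Sym2.eq_iff] at e
        rcases e with ⟨e3, e4⟩ | ⟨e3, e4⟩
        · have := hq e3
          rw [Fin.ext_iff] at this
          simp [hs, hi'] at this
          omega
        · have := hq e4
          rw [Fin.ext_iff] at this
          simp [hs, hi'] at this
          omega
  have hj : (i : ℕ) + 1 ≤ j := hij
  have h3 := h2 ((j : ℕ) - (i + 1)) (by have := j.isLt; omega)
  have e3 : (⟨(i : ℕ) + 1 + ((j : ℕ) - (i + 1)), by have := j.isLt; omega⟩ : Fin (m + 1)) = j := by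
    ext; simp; omega
  rw [e3] at h3
  rw [hic] at h1 h3 ⊢
  exact h1.trans h3.symm

/-- The cutting of an oriented tree along a directed path: every vertex gets the index of the path vertex in its
component, and every arc either stays inside a component or is an arc of the path. -/
theorem exists_index {τ : Type*} {E : τ → τ → Prop} (hG : (SimpleGraph.fromRel E).IsTree)
    (hanti : ∀ a b, E a b → ¬ E b a) {m : ℕ}
    (q : Fin (m + 1) → τ) (hq : Function.Injective q) (hqE : ∀ i : Fin m, E (q i.castSucc) (q i.succ)) :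
    ∃ ι : τ → Fin (m + 1), (∀ v, ((SimpleGraph.fromRel E).deleteEdges (pathEdges q)).Reachable (q (ι v)) v) ∧
      (∀ i, ι (q i) = i) ∧
      ∀ u v, E u v → ι u = ι v ∨ ∃ i : Fin m, u = q i.castSucc ∧ v = q i.succ := by
  choose ι hι using fun v => reach_exists hG.1 q v
  have huniq : ∀ i j, ((SimpleGraph.fromRel E).deleteEdges (pathEdges q)).Reachable (q i) (q j) → i = j := by
    intro i j hr
    rcases lt_trichotomy i j with h | h | h
    · exact (reach_unique hG.2 q hq hqE i j h hr).elim
    · exact h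
    · exact (reach_unique hG.2 q hq hqE j i h hr.symm).elim
  refine ⟨ι, hι, fun i => huniq _ _ (hι (q i)), ?_⟩
  intro u v huv
  have hne : u ≠ v := fun e => by subst e; exact hanti _ _ huv huv
  have hadj : (SimpleGraph.fromRel E).Adj u v := ⟨hne, Or.inl huv⟩
  by_cases he : s(u, v) ∈ pathEdges q
  · right
    obtain ⟨i, hi⟩ := he
    rw [Sym2.eq_iff] at hi
    rcases hi with ⟨h1, h2⟩ | ⟨h1, h2⟩
    · exact ⟨i, h1, h2⟩
    · have := hqE i
      rw [← h1, ← h2] at this
      exact absurd this (hanti _ _ huv)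
  · left
    apply huniq
    refine (hι u).trans (Reachable.trans (Adj.reachable ?_) (hι v).symm)
    rw [deleteEdges_adj]
    exact ⟨hadj, he⟩

end GS78
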