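import Pool.Agent.GS78.Main
import Pool.Agent.GS78.Tree

/-!
# Gap sliding with a pool: bounded pieces along a directed path
-/

namespace GS78

open Finset

/-- the class with index `j` -/
def cl {τ : Type*} [Fintype τ] (ι : τ → ℕ) (j : ℕ) : Finset τ := Finset.univ.filter (fun v => ι v = j)

/-- the class with index `j` without its path vertex -/
def dc {τ : Type*} [Fintype τ] [DecidableEq τ] (q : ℕ → τ) (ι : τ → ℕ) (j : ℕ) : Finset τ :=
  Finset.univ.filter (fun v => ι v = j ∧ v ≠ q j)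

/-- copies of the class `j ≥ 1` below a vertex `p` -/
def DD {V τ : Type*} [DecidableEq V] [Fintype τ] [DecidableEq τ] (R : V → V → Prop) (E : τ → τ → Prop) (q : ℕ → τ)
    (ι : τ → ℕ) (j : ℕ) (p : V) (S : Finset V) : Prop :=
  ∃ f : τ → V, (∀ a ∈ dc q ι j, ∀ b ∈ dc q ι j, f a = f b → a = b) ∧ S = (dc q ι j).image f ∧
    (∀ a ∈ dc q ι j, R p (f a)) ∧ ∀ a ∈ dc q ι j, ∀ b ∈ dc q ι j, E a b → R (f a) (f b)

/-- copies of the class `0` with `q 0` placed at `y` -/
def HH {V τ : Type*} [DecidableEq V] [Fintype τ] [DecidableEq τ] (R : V → V → Prop) (E : τ → τ → Prop) (q : ℕ → τ)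
    (ι : τ → ℕ) (y : V) (S : Finset V) : Prop :=
  ∃ f : τ → V, (∀ a ∈ cl ι 0, ∀ b ∈ cl ι 0, f a = f b → a = b) ∧ f (q 0) = y ∧ S = ((cl ι 0).erase (q 0)).image f ∧
    ∀ a ∈ cl ι 0, ∀ b ∈ cl ι 0, E a b → R (f a) (f b)

theorem mem_dc {τ : Type*} [Fintype τ] [DecidableEq τ] {q : ℕ → τ} {ι : τ → ℕ} {j : ℕ} {v : τ} :
    v ∈ dc q ι j ↔ ι v = j ∧ v ≠ q j := by
  simp [dc]

theorem mem_cl {τ : Type*} [Fintype τ] {ι : τ → ℕ} {j : ℕ} {v : τ} : v ∈ cl ι j ↔ ι v = j := by
  simp [cl]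

theorem dc_card_le {τ : Type*} [Fintype τ] [DecidableEq τ] {q : ℕ → τ} {ι : τ → ℕ} {j : ℕ} :
    (dc q ι j).card ≤ (cl ι j).card := by
  apply Finset.card_le_card
  intro v hv
  rw [mem_dc] at hv
  rw [mem_cl]
  exact hv.1

theorem DD_sys {V τ : Type*} [DecidableEq V] [Fintype τ] [DecidableEq τ] {R : V → V → Prop} (hT : Tour R)
    {E : τ → τ → Prop} (h : τ → ℕ) (hE : ∀ u v, E u v → h u < h v) (q : ℕ → τ) (ι : τ → ℕ) (C : ℕ)
    (hC : ∀ j, (cl ι j).card ≤ C) :
    DecSys R (DD R E q ι) (fun j => (dc q ι j).card) (2 ^ C) C C := by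
  classical
  have hex : ∀ j p, ∀ X : Finset V, (∀ x ∈ X, R p x) → 2 ^ C ≤ X.card → ∃ S, S ⊆ X ∧ DD R E q ι j p S := by
    intro j p X hX hc
    obtain ⟨f, Y, -, -, h1, h2, h3, -⟩ := emb_acyc hT h hE 1 (le_refl _) _ (dc q ι j) rfl X (by
      rw [mul_one]
      exact (Nat.pow_le_pow_right (by norm_num) (dc_card_le.trans (hC j))).trans hc)
    refine ⟨(dc q ι j).image f, ?_, f, h2, rfl, fun a ha => hX _ (h1 a ha), h3⟩
    intro v hv
    obtain ⟨a, ha, rfl⟩ := Finset.mem_image.1 hv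
    exact h1 a ha
  have hcard : ∀ j p S, DD R E q ι j p S → S.card = (dc q ι j).card := by
    rintro j p S ⟨f, h1, rfl, -, -⟩
    exact Finset.card_image_of_injOn (fun a ha b hb => h1 a ha b hb)
  refine ⟨Nat.one_le_two_pow, ?_, hcard, fun j => dc_card_le.trans (hC j), hex, ?_⟩
  · rintro j p S ⟨f, -, rfl, h3, -⟩ s hs
    obtain ⟨a, ha, rfl⟩ := Finset.mem_image.1 hs
    exact h3 a ha
  · intro j p S F X hS hX hc _ hne
    obtain ⟨S', h1, h2⟩ := hex j p X hX hc
    refine ⟨S', fun v hv => Finset.mem_union_right _ (h1 hv), h2, ?_⟩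
    have h3 : (S' ∩ X).card ≤ C := by
      refine (Finset.card_le_card Finset.inter_subset_left).trans ?_
      rw [hcard _ _ _ h2]
      exact dc_card_le.trans (hC j)
    have h4 := Finset.card_pos.2 hne
    calc (S' ∩ X).card ≤ C * 1 := by omega
      _ ≤ C * (S ∩ F).card := Nat.mul_le_mul_left _ h4

theorem HH_card {V τ : Type*} [DecidableEq V] [Fintype τ] [DecidableEq τ] {R : V → V → Prop} {E : τ → τ → Prop}
    {q : ℕ → τ} {ι : τ → ℕ} (y : V) (S : Finset V) (hS : HH R E q ι y S) :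
    S.card = ((cl ι 0).erase (q 0)).card := by
  obtain ⟨f, h1, -, rfl, -⟩ := hS
  exact Finset.card_image_of_injOn (fun a ha b hb => h1 a (Finset.mem_of_mem_erase ha) b (Finset.mem_of_mem_erase hb))

theorem HD_ex {V τ : Type*} [DecidableEq V] [Fintype τ] [DecidableEq τ] {R : V → V → Prop} (hT : Tour R)
    {E : τ → τ → Prop} (h : τ → ℕ) (hE : ∀ u v, E u v → h u < h v) (q : ℕ → τ) (ι : τ → ℕ) (hq0 : ι (q 0) = 0)
    (C : ℕ) (hC : ∀ j, (cl ι j).card ≤ C) (a : ℕ) (X : Finset V) (hX : 2 ^ (2 * C + 1) ≤ X.card) :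
    ∃ y S0 s F, y ∈ X ∧ S0 ⊆ X ∧ s ∈ X ∧ F ⊆ X ∧ HH R E q ι y S0 ∧ R y s ∧ DD R E q ι a s F ∧
      y ∉ F ∧ s ∉ S0 ∧ Disjoint S0 F := by
  classical
  obtain ⟨f, Y, hYX, hYc, h1, h2, h3, h4⟩ := emb_acyc hT h hE (2 * 2 ^ C) (by
    have : 1 ≤ 2 ^ C := Nat.one_le_two_pow
    omega) _ (cl ι 0) rfl X (by
      refine le_trans ?_ hX
      calc 2 ^ (cl ι 0).card * (2 * 2 ^ C) ≤ 2 ^ C * (2 * 2 ^ C) :=
            Nat.mul_le_mul_right _ (Nat.pow_le_pow_right (by norm_num) (hC 0))
        _ = 2 ^ (2 * C + 1) := by ring)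
  obtain ⟨s, hsY, hs⟩ := exists_high hT (2 ^ C) Nat.one_le_two_pow Y hYc
  obtain ⟨F, hF1, hF2⟩ := (DD_sys hT h hE q ι C hC).ex a s (Y.filter (fun w => R s w))
    (fun x hx => (Finset.mem_filter.1 hx).2) hs
  have hq0' : q 0 ∈ cl ι 0 := mem_cl.2 hq0
  have hdom : ∀ b ∈ cl ι 0, ∀ v ∈ Y, f b ≠ v := by
    intro b hb v hv e
    have := h4 b hb v hv
    rw [e] at this
    exact hT.irr v this
  have hFY : ∀ v ∈ F, v ∈ Y := fun v hv => (Finset.mem_filter.1 (hF1 hv)).1
  refine ⟨f (q 0), ((cl ι 0).erase (q 0)).image f, s, F, h1 _ hq0', ?_, hYX hsY, fun v hv => hYX (hFY v hv),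
    ⟨f, h2, rfl, rfl, h3⟩, h4 _ hq0' s hsY, hF2, ?_, ?_, ?_⟩
  · intro v hv
    obtain ⟨b, hb, rfl⟩ := Finset.mem_image.1 hv
    exact h1 b (Finset.mem_of_mem_erase hb)
  · intro hmem
    exact hdom _ hq0' _ (hFY _ hmem) rfl
  · intro hmem
    obtain ⟨b, hb, e⟩ := Finset.mem_image.1 hmem
    exact hdom b (Finset.mem_of_mem_erase hb) s hsY e
  · rw [Finset.disjoint_left]
    intro v hv hv'
    obtain ⟨b, hb, rfl⟩ := Finset.mem_image.1 hv
    exact hdom b (Finset.mem_of_mem_erase hb) _ (hFY _ hv') rfl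

/-- A head and a chain of copies of the classes give a copy of the whole digraph. -/
theorem assemble {V τ : Type*} [DecidableEq V] [Fintype τ] [DecidableEq τ] {R : V → V → Prop}
    {E : τ → τ → Prop} (m : ℕ) (q : ℕ → τ) (ι : τ → ℕ)
    (hle : ∀ v, ι v ≤ m) (hidx : ∀ i, i ≤ m → ι (q i) = i)
    (harc : ∀ u v, E u v → ι u = ι v ∨ (u = q (ι u) ∧ v = q (ι u + 1) ∧ ι u + 1 ≤ m))
    (hin : ∀ v, ∀ i, 1 ≤ i → i ≤ m → E v (q i) → ι v ≠ i) {y : V} {S0 : Finset V} {x : ℕ → V} {Q : ℕ → Finset V}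
    (hHC : HC R (DD R E q ι) (HH R E q ι) 1 m y S0 x Q) :
    ∃ f : τ → V, Function.Injective f ∧ ∀ a b, E a b → R (f a) (f b) := by
  classical
  obtain ⟨f0, hf0i, hf0y, hS0, hf0a⟩ := hHC.head
  have hex : ∀ i, ∃ f : τ → V, 1 ≤ i → i ≤ m → (∀ a ∈ dc q ι i, ∀ b ∈ dc q ι i, f a = f b → a = b) ∧
      Q i = (dc q ι i).image f ∧ (∀ a ∈ dc q ι i, R (x i) (f a)) ∧
      ∀ a ∈ dc q ι i, ∀ b ∈ dc q ι i, E a b → R (f a) (f b) := by
    intro i
    by_cases hi : 1 ≤ i ∧ i ≤ m
    · obtain ⟨f, hf⟩ := hHC.ch.dec i hi.1 hi.2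
      exact ⟨f, fun _ _ => hf⟩
    · exact ⟨f0, fun h1 h2 => absurd ⟨h1, h2⟩ hi⟩
  choose g hg using hex
  -- membership facts
  have hm0 : ∀ v, ι v = 0 → v ≠ q 0 → f0 v ∈ S0 := by
    intro v hv hne
    rw [hS0]
    exact Finset.mem_image_of_mem _ (Finset.mem_erase.2 ⟨hne, mem_cl.2 hv⟩)
  have hmi : ∀ v, 1 ≤ ι v → v ≠ q (ι v) → g (ι v) v ∈ Q (ι v) := by
    intro v hv hne
    rw [(hg (ι v) hv (hle v)).2.1]
    exact Finset.mem_image_of_mem _ (mem_dc.2 ⟨rfl, hne⟩)
  set f : τ → V := fun v => if ι v = 0 then f0 v else if v = q (ι v) then x (ι v) else g (ι v) v with hf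
  have hfz : ∀ v, ι v = 0 → f v = f0 v := by
    intro v hv
    simp only [hf, hv, if_true]
  have hfq : ∀ v, ι v ≠ 0 → v = q (ι v) → f v = x (ι v) := by
    intro v hv hvq
    simp only [hf, hv, if_false]
    rw [if_pos hvq]
  have hfg : ∀ v, ι v ≠ 0 → v ≠ q (ι v) → f v = g (ι v) v := by
    intro v hv hvq
    simp only [hf, hv, if_false]
    rw [if_neg hvq]
  -- different classes have disjoint images
  have hclass0 : ∀ v, ι v = 0 → f v = y ∧ v = q 0 ∨ f v ∈ S0 := by
    intro v hv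
    rw [hfz v hv]
    by_cases e : v = q 0
    · left
      rw [e]
      exact ⟨hf0y, rfl⟩
    · right
      exact hm0 v hv e
  have hclassi : ∀ v, ι v ≠ 0 → f v = x (ι v) ∨ f v ∈ Q (ι v) := by
    intro v hv
    by_cases e : v = q (ι v)
    · left; exact hfq v hv e
    · right
      rw [hfg v hv e]
      exact hmi v (by omega) e
  have hinj0 : ∀ u v, ι u = 0 → ι v ≠ 0 → f u ≠ f v := by
    intro u v hu hv e
    rcases hclass0 u hu with ⟨h1, -⟩ | h1
    · rcases hclassi v hv with h2 | h2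
      · exact hHC.yx (ι v) (by omega) (hle v) (by rw [← h1, e, h2])
      · rw [← e, h1] at h2
        exact hHC.yQ (ι v) (by omega) (hle v) h2
    · rcases hclassi v hv with h2 | h2
      · rw [e, h2] at h1
        exact hHC.Sx (ι v) (by omega) (hle v) h1
      · rw [← e] at h2
        exact Finset.disjoint_left.1 (hHC.SQ (ι v) (by omega) (hle v)) h1 h2
  have hinji : ∀ u v, ι u ≠ 0 → ι v ≠ 0 → f u = f v → ι u = ι v := by
    intro u v hu hv e
    by_contra hne
    rcases hclassi u hu with h1 | h1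
    · rcases hclassi v hv with h2 | h2
      · exact hne (hHC.ch.inj (ι u) (ι v) (by omega) (hle u) (by omega) (hle v) (by rw [← h1, ← h2, e]))
      · rw [← e, h1] at h2
        exact hHC.ch.nmem (ι u) (ι v) (by omega) (hle u) (by omega) (hle v) h2
    · rcases hclassi v hv with h2 | h2
      · rw [e, h2] at h1
        exact hHC.ch.nmem (ι v) (ι u) (by omega) (hle v) (by omega) (hle u) h1
      · rw [e] at h1
        exact Finset.disjoint_left.1 (hHC.ch.dis (ι u) (ι v) (by omega) (hle u) (by omega) (hle v) hne) h1 h2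
  refine ⟨f, ?_, ?_⟩
  · intro u v e
    by_cases hu : ι u = 0
    · by_cases hv : ι v = 0
      · rw [hfz u hu, hfz v hv] at e
        exact hf0i u (mem_cl.2 hu) v (mem_cl.2 hv) e
      · exact absurd e (hinj0 u v hu hv)
    · by_cases hv : ι v = 0
      · exact absurd e.symm (hinj0 v u hv hu)
      · have hi := hinji u v hu hv e
        by_cases hu' : u = q (ι u)
        · by_cases hv' : v = q (ι v)
          · rw [hu', hv', hi]
          · exfalso
            rw [hfq u hu hu', hfg v hv hv', hi] at e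
            have := hmi v (by omega) hv'
            rw [← e] at this
            exact hHC.ch.nmem (ι v) (ι v) (by omega) (hle v) (by omega) (hle v) this
        · by_cases hv' : v = q (ι v)
          · exfalso
            rw [hfq v hv hv', hfg u hu hu', ← hi] at e
            have := hmi u (by omega) hu'
            rw [e] at this
            exact hHC.ch.nmem (ι u) (ι u) (by omega) (hle u) (by omega) (hle u) this
          · rw [hfg u hu hu', hfg v hv hv', ← hi] at e
            exact (hg (ι u) (by omega) (hle u)).1 u (mem_dc.2 ⟨rfl, hu'⟩) v (mem_dc.2 ⟨hi.symm, by rw [hi]; exact hv'⟩) e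
  · intro u v huv
    rcases harc u v huv with hi | ⟨hu, hv, hle'⟩
    · by_cases hu0 : ι u = 0
      · have hv0 : ι v = 0 := by omega
        rw [hfz u hu0, hfz v hv0]
        exact hf0a u (mem_cl.2 hu0) v (mem_cl.2 hv0) huv
      · have hv0 : ι v ≠ 0 := by omega
        have hvq : v ≠ q (ι v) := by
          intro e
          rw [e] at huv
          exact hin u (ι v) (by omega) (hle v) huv hi
        rw [hfg v hv0 hvq]
        by_cases huq : u = q (ι u)
        · rw [hfq u hu0 huq, hi]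
          exact (hg (ι v) (by omega) (hle v)).2.2.1 v (mem_dc.2 ⟨rfl, hvq⟩)
        · rw [hfg u hu0 huq, ← hi]
          exact (hg (ι u) (by omega) (hle u)).2.2.2 u (mem_dc.2 ⟨rfl, huq⟩) v
            (mem_dc.2 ⟨hi.symm, by rw [hi]; exact hvq⟩) huv
    · have hiv : ι v = ι u + 1 := by
        rw [hv]
        exact hidx _ hle'
      have hvq : v = q (ι v) := by rw [hiv]; exact hv
      rw [hfq v (by omega) hvq, hiv]
      by_cases hu0 : ι u = 0
      · have hu' : u = q 0 := by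
          rw [hu0] at hu
          exact hu
        rw [hfz u hu0, hu0, hu', hf0y]
        exact hHC.link
      · rw [hfq u hu0 hu]
        exact hHC.ch.arc (ι u) (by omega) (by omega)

/-- The combinatorial theorem in terms of the index function. -/
theorem emb_index {V τ : Type*} [Fintype V] [DecidableEq V] [Fintype τ] [DecidableEq τ] {R : V → V → Prop}
    (hT : Tour R) {E : τ → τ → Prop} (h : τ → ℕ) (hE : ∀ u v, E u v → h u < h v) (m : ℕ) (q : ℕ → τ) (ι : τ → ℕ)
    (hle : ∀ v, ι v ≤ m) (hidx : ∀ i, i ≤ m → ι (q i) = i)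
    (harc : ∀ u v, E u v → ι u = ι v ∨ (u = q (ι u) ∧ v = q (ι u + 1) ∧ ι u + 1 ≤ m))
    (hin : ∀ v, ∀ i, 1 ≤ i → i ≤ m → E v (q i) → ι v ≠ i) (C : ℕ) (hC : ∀ j, (cl ι j).card ≤ C)
    (hcard : Fintype.card τ + (C * C + 6 * 2 ^ C + C + 2 ^ (2 * C + 1)) ≤ Fintype.card V) :
    ∃ f : τ → V, Function.Injective f ∧ ∀ a b, E a b → R (f a) (f b) := by
  classical
  rcases Nat.eq_zero_or_pos m with hm | hm
  · -- the whole tree is one piece
    have hcl : cl ι 0 = Finset.univ := by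
      ext v
      rw [mem_cl]
      have := hle v
      simp only [Finset.mem_univ, iff_true]
      omega
    have h1 := hC 0
    rw [hcl] at h1
    obtain ⟨f, Y, -, -, -, h2, h3, -⟩ := emb_acyc hT h hE 1 (le_refl _) _ (Finset.univ : Finset τ) rfl
      (Finset.univ : Finset V) (by
        rw [mul_one]
        have h2 : (2 : ℕ) ^ (Finset.univ : Finset τ).card ≤ 2 ^ C := Nat.pow_le_pow_right (by norm_num) h1
        have h3 : 0 < (2 : ℕ) ^ (2 * C + 1) := by positivity
        rw [Finset.card_univ (α := V)]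
        have h4 : (2 : ℕ) ^ C ≤ 6 * 2 ^ C := by omega
        calc _ ≤ _ := h2
          _ ≤ Fintype.card τ + (C * C + 6 * 2 ^ C + C + 2 ^ (2 * C + 1)) := by omega
          _ ≤ _ := hcard)
    exact ⟨f, fun a b hab => h2 a (Finset.mem_univ _) b (Finset.mem_univ _) hab,
      fun a b hab => h3 a (Finset.mem_univ _) b (Finset.mem_univ _) hab⟩
  · have hsys := DD_sys hT h hE q ι C hC
    have hsum : (1 + ((cl ι 0).erase (q 0)).card) + ∑ j ∈ Finset.Icc 1 m, (1 + (dc q ι j).card) = Fintype.card τ := by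
      have h1 : ∀ j, j ≤ m → 1 + (dc q ι j).card = (cl ι j).card := by
        intro j hj
        have : cl ι j = insert (q j) (dc q ι j) := by
          ext v
          rw [Finset.mem_insert, mem_cl, mem_dc]
          constructor
          · intro hv
            by_cases e : v = q j
            · exact Or.inl e
            · exact Or.inr ⟨hv, e⟩
          · rintro (e | e)
            · rw [e]; exact hidx j hj
            · exact e.1
        rw [this, Finset.card_insert_of_notMem (by rw [mem_dc]; tauto)]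
        ring
      have h2 : 1 + ((cl ι 0).erase (q 0)).card = (cl ι 0).card := by
        have h3 : q 0 ∈ cl ι 0 := mem_cl.2 (hidx 0 (by omega))
        have h4 : 0 < (cl ι 0).card := Finset.card_pos.2 ⟨_, h3⟩
        rw [Finset.card_erase_of_mem h3]
        omega
      rw [h2]
      have h3 : ∑ j ∈ Finset.Icc 1 m, (1 + (dc q ι j).card) = ∑ j ∈ Finset.Icc 1 m, (cl ι j).card := by
        apply Finset.sum_congr rfl
        intro j hj
        rw [Finset.mem_Icc] at hj
        exact h1 j hj.2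
      rw [h3, ← Finset.card_univ, Finset.card_eq_sum_card_fiberwise (f := ι) (t := Finset.Icc 0 m) (s := Finset.univ)]
      · rw [← Finset.sum_Ioc_add_eq_sum_Icc (by omega : 0 ≤ m)]
        rw [show Finset.Ioc 0 m = Finset.Icc 1 m from by
          ext; simp only [Finset.mem_Ioc, Finset.mem_Icc, Nat.succ_le_iff]]
        rw [add_comm]
        rfl
      · intro v _
        simp only [Finset.coe_Icc, Set.mem_Icc]
        exact ⟨Nat.zero_le _, hle v⟩
    obtain ⟨y, S0, x, Q, hHC⟩ := main_abs hT hsys (D0 := HH R E q ι) (c0 := ((cl ι 0).erase (q 0)).card)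
      (fun y S hS => HH_card y S hS) (ψ := 2 ^ (2 * C + 1))
      (fun a X hX => HD_ex hT h hE q ι (hidx 0 (by omega)) C hC a X hX) m 1 hm (by
        rw [hsum]
        exact hcard)
    exact assemble m q ι hle hidx harc hin hHC

end GS78
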