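import Pool.Agent.GS78.Emb

/-!
# Gap sliding with a pool: the final theorem for bounded pieces along a directed path
-/

namespace GS78

open Finset

theorem final_out {k n : ℕ} {R : Fin n → Fin n → Prop} (hT : Tour R) {E : Fin (k + 1) → Fin (k + 1) → Prop}
    (hanti : ∀ a b, E a b → ¬ E b a) (hG : (SimpleGraph.fromRel E).IsTree) (C m : ℕ) (q : Fin (m + 1) → Fin (k + 1))
    (hq : Function.Injective q) (hqE : ∀ i : Fin m, E (q i.castSucc) (q i.succ))
    (hin : ∀ (i : Fin m) (v), E v (q i.succ) → v = q i.castSucc)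
    (hC : ∀ i, {v | ((SimpleGraph.fromRel E).deleteEdges (pathEdges q)).Reachable (q i) v}.ncard ≤ C)
    (hcard : k + 1 + (C * C + 6 * 2 ^ C + C + 2 ^ (2 * C + 1)) ≤ n) :
    ∃ f : Fin (k + 1) → Fin n, Function.Injective f ∧ ∀ a b, E a b → R (f a) (f b) := by
  classical
  obtain ⟨h, hE⟩ := exists_rank hanti hG.2
  obtain ⟨ι, hι1, hι2, hι3⟩ := exists_index hG hanti q hq hqE
  set qn : ℕ → Fin (k + 1) := fun j => if hj : j < m + 1 then q ⟨j, hj⟩ else q 0 with hqn
  have hqn' : ∀ i : Fin (m + 1), qn i = q i := by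
    intro i
    simp only [hqn, i.isLt, dif_pos]
  have hqn2 : ∀ j (hj : j < m + 1), qn j = q ⟨j, hj⟩ := by
    intro j hj
    simp only [hqn, hj, dif_pos]
  refine emb_index hT h hE m qn (fun v => (ι v : ℕ)) (fun v => ?_) ?_ ?_ ?_ C ?_ ?_
  · have := (ι v).isLt
    omega
  · intro i hi
    rw [hqn2 i (by omega), hι2]
  · intro u v huv
    rcases hι3 u v huv with h1 | ⟨i, h1, h2⟩
    · left
      rw [h1]
    · right
      have e1 : ι u = i.castSucc := by rw [h1, hι2]
      have e2 : ((ι u : Fin (m + 1)) : ℕ) = i := by rw [e1]; simp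
      have e3 : ((ι u : Fin (m + 1)) : ℕ) + 1 = (i.succ : Fin (m + 1)) := by rw [e2]; simp
      refine ⟨?_, ?_, ?_⟩
      · rw [hqn', e1]
        exact h1
      · rw [e3, hqn']
        exact h2
      · rw [e2]
        have := i.isLt
        omega
  · intro v i hi1 him hv
    rw [hqn2 i (by omega)] at hv
    set i' : Fin m := ⟨i - 1, by omega⟩ with hi'
    have e1 : (⟨i, by omega⟩ : Fin (m + 1)) = i'.succ := by
      ext
      simp [hi']
      omega
    rw [e1] at hv
    have := hin i' v hv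
    rw [this, hι2]
    simp only [hi', Fin.val_castSucc]
    omega
  · intro j
    by_cases hj : j < m + 1
    · refine le_trans ?_ (hC ⟨j, hj⟩)
      rw [← Set.ncard_coe_finset]
      refine Set.ncard_le_ncard ?_ (Set.toFinite _)
      intro v hv
      rw [Finset.mem_coe, mem_cl] at hv
      have e : ι v = ⟨j, hj⟩ := by
        ext
        exact hv
      rw [Set.mem_ofPred_eq, ← e]
      exact hι1 v
    · have : cl (fun v => (ι v : ℕ)) j = ∅ := by
        rw [Finset.eq_empty_iff_forall_notMem]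
        intro v hv
        rw [mem_cl] at hv
        have := (ι v).isLt
        omega
      rw [this]
      simp
  · simpa using hcard

theorem num_bound (C : ℕ) : C * C + 6 * 2 ^ C + C + 2 ^ (2 * C + 1) + 1 ≤ 4 ^ (C + 2) := by
  have h1 : C + 1 ≤ 2 ^ C := Nat.lt_two_pow_self
  have h2 : (4 : ℕ) ^ (C + 2) = 16 * (2 ^ C * 2 ^ C) := by
    rw [show (4 : ℕ) = 2 ^ 2 by norm_num, ← pow_mul]
    ring
  have h3 : (2 : ℕ) ^ (2 * C + 1) = 2 * (2 ^ C * 2 ^ C) := by ring
  rw [h2, h3]
  set P := 2 ^ C with hP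
  have h4 : C * C ≤ P * P := Nat.mul_le_mul (by omega) (by omega)
  have h5 : P ≤ P * P := Nat.le_mul_self P
  omega

end GS78
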