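import Pool.Agent.GS78.Slide

/-!
# Gap sliding with a pool: the abstract theorem
-/

namespace GS78

open Finset

variable {V : Type*} [DecidableEq V]

/-- A head (a copy of the first, arbitrary, part with root `y`) followed by a chain of the types `a..b`. -/
structure HC (R : V → V → Prop) (D : ℕ → V → Finset V → Prop) (D0 : V → Finset V → Prop) (a b : ℕ) (y : V)
    (S0 : Finset V) (x : ℕ → V) (Q : ℕ → Finset V) : Prop where
  head : D0 y S0
  link : R y (x a)
  ch : Chain R D a b x Q
  yx : ∀ i, a ≤ i → i ≤ b → y ≠ x i
  yQ : ∀ i, a ≤ i → i ≤ b → y ∉ Q i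
  Sx : ∀ i, a ≤ i → i ≤ b → x i ∉ S0
  SQ : ∀ i, a ≤ i → i ≤ b → Disjoint S0 (Q i)

omit [DecidableEq V] in
theorem chain_shift {R : V → V → Prop} {D : ℕ → V → Finset V → Prop} {a b : ℕ} {x : ℕ → V} {Q : ℕ → Finset V}
    (h : Chain R D (a + 1) b x Q) (hab : a + 1 ≤ b) :
    Chain R (fun j => D (a + j)) 1 (b - a) (fun j => x (a + j)) (fun j => Q (a + j)) := by
  refine ⟨?_, ?_, ?_, ?_, ?_⟩
  · intro i h1 h2
    have := h.arc (a + i) (by omega) (by omega)
    rwa [show a + i + 1 = a + (i + 1) by ring] at this
  · intro i h1 h2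
    exact h.dec (a + i) (by omega) (by omega)
  · intro i j h1 h2 h3 h4 he
    have := h.inj (a + i) (a + j) (by omega) (by omega) (by omega) (by omega) he
    omega
  · intro i j h1 h2 h3 h4 hne
    exact h.dis (a + i) (a + j) (by omega) (by omega) (by omega) (by omega) (by omega)
  · intro i j h1 h2 h3 h4
    exact h.nmem (a + i) (a + j) (by omega) (by omega) (by omega) (by omega)

omit [DecidableEq V] in
theorem chain_unshift {R : V → V → Prop} {D : ℕ → V → Finset V → Prop} {a b : ℕ} {x : ℕ → V} {Q : ℕ → Finset V}
    (hab : a ≤ b) (h : Chain R (fun j => D (a + j)) 0 (b - a) x Q) :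
    Chain R D a b (fun j => x (j - a)) (fun j => Q (j - a)) := by
  refine ⟨?_, ?_, ?_, ?_, ?_⟩
  · intro i h1 h2
    have := h.arc (i - a) (by omega) (by omega)
    rwa [show i - a + 1 = i + 1 - a by omega] at this
  · intro i h1 h2
    have := h.dec (i - a) (by omega) (by omega)
    simpa [show a + (i - a) = i by omega] using this
  · intro i j h1 h2 h3 h4 he
    have := h.inj (i - a) (j - a) (by omega) (by omega) (by omega) (by omega) he
    omega
  · intro i j h1 h2 h3 h4 hne
    exact h.dis (i - a) (j - a) (by omega) (by omega) (by omega) (by omega) (by omega)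
  · intro i j h1 h2 h3 h4
    exact h.nmem (i - a) (j - a) (by omega) (by omega) (by omega) (by omega)

/-- the set of vertices used by a head and a chain -/
def used (a b : ℕ) (y : V) (S0 : Finset V) (x : ℕ → V) (Q : ℕ → Finset V) : Finset V :=
  insert y S0 ∪ (Finset.Icc a b).biUnion (fun i => insert (x i) (Q i))

theorem mem_used {a b : ℕ} {y : V} {S0 : Finset V} {x : ℕ → V} {Q : ℕ → Finset V} {v : V} :
    v ∈ used a b y S0 x Q ↔ v = y ∨ v ∈ S0 ∨ ∃ i, a ≤ i ∧ i ≤ b ∧ (v = x i ∨ v ∈ Q i) := by
  unfold used
  simp only [Finset.mem_union, Finset.mem_insert, Finset.mem_biUnion, Finset.mem_Icc]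
  constructor
  · rintro ((h | h) | ⟨i, ⟨h1, h2⟩, h3⟩)
    · exact Or.inl h
    · exact Or.inr (Or.inl h)
    · exact Or.inr (Or.inr ⟨i, h1, h2, h3⟩)
  · rintro (h | h | ⟨i, h1, h2, h3⟩)
    · exact Or.inl (Or.inl h)
    · exact Or.inl (Or.inr h)
    · exact Or.inr ⟨i, ⟨h1, h2⟩, h3⟩

theorem card_used {R : V → V → Prop} {D : ℕ → V → Finset V → Prop} {c : ℕ → ℕ} {φ C κ : ℕ}
    (hD : DecSys R D c φ C κ) {D0 : V → Finset V → Prop} {c0 : ℕ} (hc0 : ∀ y S, D0 y S → S.card = c0) {a b : ℕ}
    {y : V} {S0 : Finset V} {x : ℕ → V} {Q : ℕ → Finset V} (h : HC R D D0 a b y S0 x Q) :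
    (used a b y S0 x Q).card ≤ (1 + c0) + ∑ j ∈ Finset.Icc a b, (1 + c j) := by
  unfold used
  refine (Finset.card_union_le _ _).trans (Nat.add_le_add ?_ ?_)
  · have := Finset.card_insert_le y S0
    have h1 := hc0 y S0 h.head
    omega
  · refine Finset.card_biUnion_le.trans (Finset.sum_le_sum ?_)
    intro i hi
    rw [Finset.mem_Icc] at hi
    have h1 := Finset.card_insert_le (x i) (Q i)
    have h2 := hD.card i _ _ (h.ch.dec i hi.1 hi.2)
    omega

theorem main_abs [Fintype V] {R : V → V → Prop} (hT : Tour R) {D : ℕ → V → Finset V → Prop} {c : ℕ → ℕ} {φ C κ : ℕ}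
    (hD : DecSys R D c φ C κ) {D0 : V → Finset V → Prop} {c0 : ℕ} (hc0 : ∀ y S, D0 y S → S.card = c0)
    {ψ : ℕ}
    (hex : ∀ a, ∀ X : Finset V, ψ ≤ X.card → ∃ y S0 s F, y ∈ X ∧ S0 ⊆ X ∧ s ∈ X ∧ F ⊆ X ∧ D0 y S0 ∧ R y s ∧ D a s F ∧
      y ∉ F ∧ s ∉ S0 ∧ Disjoint S0 F)
    (b : ℕ) (a : ℕ) (hab : a ≤ b)
    (hcard : (1 + c0) + ∑ j ∈ Finset.Icc a b, (1 + c j) + (κ * C + 6 * φ + C + ψ) ≤ Fintype.card V) :
    ∃ y S0 x Q, HC R D D0 a b y S0 x Q := by
  classical
  induction hab using Nat.decreasingInduction with
  | self =>
    obtain ⟨y, S0, s, F, -, -, -, -, h5, h6, h7, h8, h9, h10⟩ := hex b Finset.univ (by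
      rw [Finset.card_univ]; omega)
    refine ⟨y, S0, fun _ => s, fun _ => F, ⟨h5, h6, ⟨?_, ?_, ?_, ?_, ?_⟩, ?_, ?_, ?_, ?_⟩⟩
    · intro i h1 h2; omega
    · intro i h1 h2
      have : i = b := by omega
      subst this
      exact h7
    · intro i j h1 h2 h3 h4 _; omega
    · intro i j h1 h2 h3 h4 hne; omega
    · intro i j h1 h2 h3 h4 hmem
      exact hT.irr s (hD.out b s F h7 s hmem)
    · intro i _ _ e
      exact hT.irr y (by rw [← e] at h6; exact h6)
    · intro i _ _; exact h8
    · intro i _ _; exact h9
    · intro i _ _; exact h10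
  | of_succ a hab ih =>
    have hsum : ∑ j ∈ Finset.Icc a b, (1 + c j) = (1 + c a) + ∑ j ∈ Finset.Icc (a + 1) b, (1 + c j) := by
      rw [← Finset.sum_Ioc_add_eq_sum_Icc (by omega : a ≤ b)]
      rw [show Finset.Ioc a b = Finset.Icc (a + 1) b from by ext; simp only [Finset.mem_Ioc, Finset.mem_Icc, Nat.succ_le_iff]]
      ring
    obtain ⟨y, S0, x, Q, h⟩ := ih (by omega)
    have hcu := card_used hD hc0 h
    set P : Finset V := Finset.univ \ used (a + 1) b y S0 x Q with hP
    have hPc : κ * C + 6 * φ + C + ψ ≤ P.card := by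
      have := Finset.le_card_sdiff (used (a + 1) b y S0 x Q) Finset.univ
      rw [Finset.card_univ, ← hP] at this
      omega
    have hPn : ∀ v ∈ P, v ≠ y ∧ v ∉ S0 ∧ ∀ i, a + 1 ≤ i → i ≤ b → v ≠ x i ∧ v ∉ Q i := by
      intro v hv
      rw [hP, Finset.mem_sdiff, mem_used] at hv
      refine ⟨fun e => hv.2 (Or.inl e), fun e => hv.2 (Or.inr (Or.inl e)), fun i h1 h2 => ⟨fun e => ?_, fun e => ?_⟩⟩
      · exact hv.2 (Or.inr (Or.inr ⟨i, h1, h2, Or.inl e⟩))
      · exact hv.2 (Or.inr (Or.inr ⟨i, h1, h2, Or.inr e⟩))
    have hsplit := Finset.card_filter_add_card_filter_not (s := P) (fun w => R (x (a + 1)) w)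
    rcases Nat.lt_or_ge (P.filter (fun w => R (x (a + 1)) w)).card (κ * C + 6 * φ + C) with hlow | hhigh
    · -- many vertices of the pool dominate `x (a+1)`
      obtain ⟨y', S0', s, F, h1, h2, h3, h4, h5, h6, h7, h8, h9, h10⟩ := hex a
        (P.filter (fun w => ¬ R (x (a + 1)) w)) (by omega)
      have hFP : ∀ v ∈ F, v ∈ P := fun v hv => (Finset.mem_filter.1 (h4 hv)).1
      have hSP : ∀ v ∈ S0', v ∈ P := fun v hv => (Finset.mem_filter.1 (h2 hv)).1
      have hyP : y' ∈ P := (Finset.mem_filter.1 h1).1
      have hsP : s ∈ P := (Finset.mem_filter.1 h3).1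
      have hRs : R s (x (a + 1)) := by
        rcases hT.tot (x (a + 1)) s ((hPn s hsP).2.2 (a + 1) (le_refl _) (by omega)).1.symm with h | h
        · exact absurd h (Finset.mem_filter.1 h3).2
        · exact h
      refine ⟨y', S0', fun i => if i = a then s else x i, fun i => if i = a then F else Q i,
        ⟨h5, ?_, ⟨?_, ?_, ?_, ?_, ?_⟩, ?_, ?_, ?_, ?_⟩⟩
      · simpa using h6
      · intro i h11 h12
        by_cases hia : i = a
        · subst hia
          simpa using hRs
        · have : ¬ (i + 1 = a) := by omega
          simp only [hia, this, if_false]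
          exact h.ch.arc i (by omega) h12
      · intro i h11 h12
        by_cases hia : i = a
        · subst hia
          simpa using h7
        · simp only [hia, if_false]
          exact h.ch.dec i (by omega) h12
      · intro i j h11 h12 h13 h14 he
        by_cases hia : i = a
        · by_cases hja : j = a
          · omega
          · simp only [hia, hja, if_true, if_false] at he
            exact absurd he ((hPn s hsP).2.2 j (by omega) h14).1
        · by_cases hja : j = a
          · simp only [hia, hja, if_true, if_false] at he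
            exact absurd he.symm ((hPn s hsP).2.2 i (by omega) h12).1
          · simp only [hia, hja, if_false] at he
            exact h.ch.inj i j (by omega) h12 (by omega) h14 he
      · have key : ∀ j, a + 1 ≤ j → j ≤ b → Disjoint F (Q j) := by
          intro j h13 h14
          rw [Finset.disjoint_left]
          intro v hv hv'
          exact ((hPn v (hFP v hv)).2.2 j h13 h14).2 hv'
        intro i j h11 h12 h13 h14 hne
        by_cases hia : i = a
        · by_cases hja : j = a
          · omega
          · simp only [hia, hja, if_true, if_false]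
            exact key j (by omega) h14
        · by_cases hja : j = a
          · simp only [hia, hja, if_true, if_false]
            exact (key i (by omega) h12).symm
          · simp only [hia, hja, if_false]
            exact h.ch.dis i j (by omega) h12 (by omega) h14 hne
      · intro i j h11 h12 h13 h14
        by_cases hia : i = a
        · by_cases hja : j = a
          · simp only [hia, hja, if_true]
            intro hmem
            exact hT.irr s (hD.out a s F h7 s hmem)
          · simp only [hia, hja, if_true, if_false]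
            exact ((hPn s hsP).2.2 j (by omega) h14).2
        · by_cases hja : j = a
          · simp only [hia, hja, if_true, if_false]
            intro hmem
            exact ((hPn _ (hFP _ hmem)).2.2 i (by omega) h12).1 rfl
          · simp only [hia, hja, if_false]
            exact h.ch.nmem i j (by omega) h12 (by omega) h14
      · intro i h11 h12
        by_cases hia : i = a
        · simp only [hia, if_true]
          intro e
          exact hT.irr y' (by rw [← e] at h6; exact h6)
        · simp only [hia, if_false]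
          exact ((hPn y' hyP).2.2 i (by omega) h12).1
      · intro i h11 h12
        by_cases hia : i = a
        · simp only [hia, if_true]
          exact h8
        · simp only [hia, if_false]
          exact ((hPn y' hyP).2.2 i (by omega) h12).2
      · intro i h11 h12
        by_cases hia : i = a
        · simp only [hia, if_true]
          exact h9
        · simp only [hia, if_false]
          intro hmem
          exact ((hPn _ (hSP _ hmem)).2.2 i (by omega) h12).1 rfl
      · intro i h11 h12
        by_cases hia : i = a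
        · simp only [hia, if_true]
          exact h10
        · simp only [hia, if_false]
          rw [Finset.disjoint_left]
          intro v hv hv'
          exact ((hPn v (hSP v hv)).2.2 i (by omega) h12).2 hv'
    · -- many vertices of the pool are dominated by `x (a+1)`
      obtain ⟨Z, hZ1, hZ2⟩ := Finset.exists_subset_card_eq
        (s := P.filter (fun w => R (x (a + 1)) w)) (n := κ * C + 3 * φ) (by omega)
      set W0 := (P.filter (fun w => R (x (a + 1)) w)) \ Z with hW0
      have hW0c : 3 * φ + C ≤ W0.card := by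
        rw [hW0, Finset.card_sdiff_of_subset hZ1]
        omega
      have hZP : ∀ v ∈ Z, v ∈ P := fun v hv => (Finset.mem_filter.1 (hZ1 hv)).1
      have hWP : ∀ v ∈ W0, v ∈ P := fun v hv => (Finset.mem_filter.1 (Finset.mem_sdiff.1 hv).1).1
      have hctx : Ctx R (fun j => D (a + j)) (fun j => c (a + j)) φ C κ (b - a) (fun j => x (a + j))
          (fun j => Q (a + j)) Z W0 := by
        refine ⟨hT, ⟨hD.pos, fun j => hD.out (a + j), fun j => hD.card (a + j), fun j => hD.cle (a + j),
          fun j => hD.ex (a + j), fun j => hD.rep (a + j)⟩, by omega, chain_shift h.ch (by omega), ?_, ?_, ?_, ?_, ?_,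
          ?_, ?_, by omega, hW0c⟩
        · rw [Finset.disjoint_left]
          intro v hv hv'
          exact (Finset.mem_sdiff.1 hv').2 hv
        · intro i h1 h2
          rw [Finset.disjoint_left]
          intro v hv hv'
          exact ((hPn v (hZP v hv')).2.2 (a + i) (by omega) (by omega)).2 hv
        · intro i h1 h2
          rw [Finset.disjoint_left]
          intro v hv hv'
          exact ((hPn v (hWP v hv')).2.2 (a + i) (by omega) (by omega)).2 hv
        · intro i h1 h2 hmem
          exact ((hPn _ (hZP _ hmem)).2.2 (a + i) (by omega) (by omega)).1 rfl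
        · intro i h1 h2 hmem
          exact ((hPn _ (hWP _ hmem)).2.2 (a + i) (by omega) (by omega)).1 rfl
        · intro z hz
          exact (Finset.mem_filter.1 (hZ1 hz)).2
        · intro z hz
          exact (Finset.mem_filter.1 (Finset.mem_sdiff.1 hz).1).2
      obtain ⟨x', Q', hch, hx0, hcov⟩ := core hctx
      have hcov' : ∀ v, (∃ i, i ≤ b - a ∧ (v = x' i ∨ v ∈ Q' i)) → v ≠ y ∧ v ∉ S0 := by
        intro v hv
        rcases hcov v hv with h1 | h1 | ⟨i, h1, h2, h3⟩
        · exact ⟨(hPn v (hZP v h1)).1, (hPn v (hZP v h1)).2.1⟩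
        · exact ⟨(hPn v (hWP v h1)).1, (hPn v (hWP v h1)).2.1⟩
        · rcases h3 with h3 | h3
          · constructor
            · intro e
              exact h.yx (a + i) (by omega) (by omega) (by rw [← e, h3])
            · intro e
              rw [h3] at e
              exact h.Sx (a + i) (by omega) (by omega) e
          · constructor
            · intro e
              rw [e] at h3
              exact h.yQ (a + i) (by omega) (by omega) h3
            · intro e
              exact Finset.disjoint_left.1 (h.SQ (a + i) (by omega) (by omega)) e h3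
      refine ⟨y, S0, fun j => x' (j - a), fun j => Q' (j - a), ⟨h.head, ?_, chain_unshift (by omega) hch, ?_, ?_, ?_,
        ?_⟩⟩
      · simp only [Nat.sub_self]
        rw [hx0]
        exact h.link
      · intro i h1 h2 e
        exact (hcov' (x' (i - a)) ⟨i - a, by omega, Or.inl rfl⟩).1 e.symm
      · intro i h1 h2 e
        exact (hcov' y ⟨i - a, by omega, Or.inr e⟩).1 rfl
      · intro i h1 h2
        exact (hcov' (x' (i - a)) ⟨i - a, by omega, Or.inl rfl⟩).2
      · intro i h1 h2
        rw [Finset.disjoint_left]
        intro v hv hv'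
        exact (hcov' v ⟨i - a, by omega, Or.inr hv'⟩).2 hv

end GS78
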