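import Pool.Agent.GS78.Core

/-!
# Gap sliding with a pool: the sliding argument
-/

namespace GS78

open Finset

variable {V : Type*} [DecidableEq V]

/-- fresh decorations for a few owners, taken from the reserve -/
theorem fresh {R : V → V → Prop} {D : ℕ → V → Finset V → Prop} {c : ℕ → ℕ} {φ C κ : ℕ} (hD : DecSys R D c φ C κ)
    (p : ℕ → V) (S : ℕ → Finset V) (F Z0 : Finset V) (T : Finset ℕ) (hdec : ∀ t ∈ T, D t (p t) (S t))
    (hne : ∀ t ∈ T, (S t ∩ F).Nonempty) (hRz : ∀ t ∈ T, ∀ z ∈ Z0, R (p t) z) (hSZ : ∀ t ∈ T, Disjoint (S t) Z0)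
    (n : ℕ) (hn : ∑ t ∈ T, (S t ∩ F).card ≤ n) (hZ : κ * n + φ ≤ Z0.card) :
    ∃ Sst : ℕ → Finset V, (∀ t ∈ T, D t (p t) (Sst t) ∧ Sst t ⊆ (S t \ F) ∪ Z0) ∧
      (∀ t ∈ T, ∀ t' ∈ T, t ≠ t' → Disjoint (Sst t ∩ Z0) (Sst t' ∩ Z0)) ∧
      (T.biUnion (fun t => Sst t ∩ Z0)).card ≤ κ * ∑ t ∈ T, (S t ∩ F).card := by
  classical
  induction T using Finset.induction_on with
  | empty => exact ⟨fun _ => ∅, by simp, by simp, by simp⟩
  | insert a T ha ih =>
    rw [Finset.sum_insert ha] at hn
    obtain ⟨Sst, h1, h2, h3⟩ := ih (fun t ht => hdec t (Finset.mem_insert_of_mem ht))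
      (fun t ht => hne t (Finset.mem_insert_of_mem ht)) (fun t ht => hRz t (Finset.mem_insert_of_mem ht))
      (fun t ht => hSZ t (Finset.mem_insert_of_mem ht)) (by omega)
    have hmul : κ * ∑ t ∈ T, (S t ∩ F).card ≤ κ * n := Nat.mul_le_mul_left _ (by omega)
    have hcard : φ ≤ (Z0 \ T.biUnion (fun t => Sst t ∩ Z0)).card := by
      have h4 := Finset.le_card_sdiff (T.biUnion (fun t => Sst t ∩ Z0)) Z0
      omega
    obtain ⟨S', h5, h6, h7⟩ := hD.rep a (p a) (S a) F (Z0 \ T.biUnion (fun t => Sst t ∩ Z0))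
      (hdec a (Finset.mem_insert_self _ _))
      (fun x hx => hRz a (Finset.mem_insert_self _ _) x (Finset.mem_sdiff.1 hx).1) hcard
      (Finset.disjoint_of_subset_right Finset.sdiff_subset (hSZ a (Finset.mem_insert_self _ _)))
      (hne a (Finset.mem_insert_self _ _))
    have hSa := hSZ a (Finset.mem_insert_self _ _)
    have hint : S' ∩ Z0 ⊆ S' ∩ (Z0 \ T.biUnion (fun t => Sst t ∩ Z0)) := by
      intro v hv
      rw [Finset.mem_inter] at hv ⊢
      refine ⟨hv.1, ?_⟩
      rcases Finset.mem_union.1 (h5 hv.1) with h | h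
      · exact absurd hv.2 (Finset.disjoint_left.1 hSa (Finset.mem_sdiff.1 h).1)
      · exact h
    have hdisj : ∀ t ∈ T, Disjoint (S' ∩ Z0) (Sst t ∩ Z0) := by
      intro t ht
      rw [Finset.disjoint_left]
      intro v hv hv'
      have h8 := (Finset.mem_inter.1 (hint hv)).2
      exact (Finset.mem_sdiff.1 h8).2 (Finset.mem_biUnion.2 ⟨t, ht, hv'⟩)
    have hne' : ∀ t ∈ T, t ≠ a := fun t ht e => ha (e ▸ ht)
    refine ⟨Function.update Sst a S', ?_, ?_, ?_⟩
    · intro t ht
      rcases Finset.mem_insert.1 ht with h | h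
      · subst h
        rw [Function.update_self]
        refine ⟨h6, ?_⟩
        intro v hv
        rcases Finset.mem_union.1 (h5 hv) with h | h
        · exact Finset.mem_union_left _ h
        · exact Finset.mem_union_right _ (Finset.mem_sdiff.1 h).1
      · rw [Function.update_of_ne (hne' t h)]
        exact h1 t h
    · intro t ht t' ht' htt
      rcases Finset.mem_insert.1 ht with h | h
      · rcases Finset.mem_insert.1 ht' with h' | h'
        · exact absurd (h.trans h'.symm) htt
        · subst h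
          rw [Function.update_self, Function.update_of_ne (hne' t' h')]
          exact hdisj t' h'
      · rcases Finset.mem_insert.1 ht' with h' | h'
        · subst h'
          rw [Function.update_self, Function.update_of_ne (hne' t h)]
          exact (hdisj t h).symm
        · rw [Function.update_of_ne (hne' t h), Function.update_of_ne (hne' t' h')]
          exact h2 t h t' h' htt
    · rw [Finset.biUnion_insert, Finset.sum_insert ha]
      have e1 : (T.biUnion fun t => Function.update Sst a S' t ∩ Z0) = T.biUnion (fun t => Sst t ∩ Z0) := by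
        apply Finset.biUnion_congr rfl
        intro t ht
        rw [Function.update_of_ne (hne' t ht)]
      rw [e1, Function.update_self]
      have h8 := Finset.card_union_le (S' ∩ Z0) (T.biUnion (fun t => Sst t ∩ Z0))
      have h9 := Finset.card_le_card hint
      have h10 : κ * ((S a ∩ F).card + ∑ t ∈ T, (S t ∩ F).card)
          = κ * (S a ∩ F).card + κ * ∑ t ∈ T, (S t ∩ F).card := by ring
      omega

section slide

variable {R : V → V → Prop} {D : ℕ → V → Finset V → Prop} {c : ℕ → ℕ} {φ C κ m : ℕ} {p : ℕ → V}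
    {S : ℕ → Finset V} {Z W0 : Finset V}

theorem St.mono {S' : ℕ → Finset V} {i j : ℕ} (h : St D p S W0 S' i) (hij : j ≤ i) : St D p S W0 S' j :=
  ⟨fun t ht => h.dec t (by omega), fun t ht => h.sub t (by omega)⟩

/-- the vertices of the reserve which have many out-neighbours in the reserve -/
noncomputable def Z0 (R : V → V → Prop) (Z : Finset V) (φ : ℕ) : Finset V := by
  classical
  exact Z.filter (fun z => φ ≤ (Z.filter (fun w => R z w)).card)

omit [DecidableEq V] in
theorem mem_Z0 {z : V} : z ∈ Z0 R Z φ ↔ z ∈ Z ∧ ∃ X ⊆ Z, φ ≤ X.card ∧ ∀ x ∈ X, R z x := by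
  classical
  unfold Z0
  rw [Finset.mem_filter]
  constructor
  · rintro ⟨h1, h2⟩
    refine ⟨h1, _, Finset.filter_subset _ _, h2, ?_⟩
    intro x hx
    exact (Finset.mem_filter.1 hx).2
  · rintro ⟨h1, X, hX, h2, h3⟩
    refine ⟨h1, h2.trans (Finset.card_le_card ?_)⟩
    intro x hx
    exact Finset.mem_filter.2 ⟨hX hx, h3 x hx⟩

theorem card_Z0 (hT : Tour R) (hφ : 1 ≤ φ) : Z.card < (Z0 R Z φ).card + 2 * φ := by
  classical
  by_contra hcon
  have h1 := Finset.le_card_sdiff (Z0 R Z φ) Z
  obtain ⟨v, hv, h2⟩ := exists_high hT φ hφ (Z \ Z0 R Z φ) (by omega)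
  rw [Finset.mem_sdiff] at hv
  apply hv.2
  rw [mem_Z0]
  refine ⟨hv.1, _, ?_, h2, ?_⟩
  · exact (Finset.filter_subset _ _).trans Finset.sdiff_subset
  · intro x hx
    exact (Finset.mem_filter.1 hx).2

theorem Z0_below (h : Ctx R D c φ C κ m p S Z W0) (hG : ¬ Goal R D m p S Z W0) {S' : ℕ → Finset V} {i : ℕ}
    (hst : St D p S W0 S' i) {z : V} (hz : z ∈ Z0 R Z φ) :
    ∀ j, 1 ≤ j → j ≤ i + 1 → j ≤ m → R (p j) z := by
  intro j hj1
  induction j, hj1 using Nat.le_induction with
  | base => intro _ _; exact h.z1 z (mem_Z0.1 hz).1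
  | succ j hj1 ih =>
    intro hji hjm
    have hR := ih (by omega) (by omega)
    by_contra hcon
    have hzp : p (j + 1) ≠ z := fun e => h.zp (j + 1) (by omega) hjm (e ▸ (mem_Z0.1 hz).1)
    have hR' : R z (p (j + 1)) := by
      rcases h.tour.tot _ _ hzp with h1 | h1
      · exact absurd h1 hcon
      · exact h1
    obtain ⟨hzZ, X, hXZ, hXc, hXR⟩ := mem_Z0.1 hz
    obtain ⟨F', hF'X, hF'⟩ := h.sys.ex j z X hXR hXc
    apply hG
    refine insert_goal h hj1 (by omega) (hst.mono (by omega)) z (Or.inl hzZ) F' hF' S ?_ ?_ ?_ ?_ ?_ ?_ hR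
      (fun _ => hR')
    · intro t ht htm
      exact h.ch.dec t (by omega) htm
    · intro t ht htm
      exact Finset.subset_union_left
    · intro t t' ht htm ht' htm' hne
      exact h.ch.dis t t' (by omega) htm (by omega) htm' hne
    · intro f hf
      exact Or.inl (hXZ (hF'X hf))
    · intro t ht htm
      rw [Finset.disjoint_left]
      intro f hf hf'
      exact Finset.disjoint_left.1 (h.zS t (by omega) htm) hf' (hXZ (hF'X hf))
    · intro t ht htm hmem
      exact Finset.disjoint_left.1 (h.zS t (by omega) htm) hmem hzZ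

theorem dead_bound (h : Ctx R D c φ C κ m p S Z W0) (hG : ¬ Goal R D m p S Z W0) {S' : ℕ → Finset V} {i : ℕ}
    (hi1 : 1 ≤ i) (him : i < m) (hst : St D p S W0 S' i) (Y : Finset V) (hY : Y ⊆ Wk W0 S S' i)
    (hYR : ∀ y ∈ Y, R y (p (i + 1))) : Y.card < 2 * φ := by
  classical
  by_contra hcon
  obtain ⟨w, hwY, hw⟩ := exists_high h.tour φ h.sys.pos Y (by omega)
  have hwW := hY hwY
  -- the release time of a vertex
  have hrel : ∀ v ∈ Y, ∃ t, 1 ≤ t ∧ t ≤ i ∧ R (p t) v ∧ (v ∈ W0 ∨ ∃ u, 1 ≤ u ∧ u ≤ t ∧ v ∈ S u) := by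
    intro v hv
    rcases (mem_Wk.1 (hY hv)).1 with h1 | ⟨u, hu1, hui, hu⟩
    · exact ⟨1, le_refl _, hi1, h.w1 v h1, Or.inl h1⟩
    · exact ⟨u, hu1, hui, h.sys.out u (p u) (S u) (h.ch.dec u hu1 (by omega)) v hu, Or.inr ⟨u, hu1, le_refl _, hu⟩⟩
  obtain ⟨t0, ht01, ht0i, ht0R, ht0loc⟩ := hrel w hwY
  -- the turning time
  have hturn : ∃ k, t0 ≤ k ∧ k ≤ i ∧ R (p k) w ∧ ¬ R (p (k + 1)) w := by
    by_contra hno
    push Not at hno
    have : ∀ k, t0 ≤ k → k ≤ i + 1 → R (p k) w := by
      intro k hk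
      induction k, hk using Nat.le_induction with
      | base => intro _; exact ht0R
      | succ k hk ih => intro hki; exact hno k hk (by omega) (ih (by omega))
    exact h.tour.asym _ _ (this (i + 1) (by omega) (le_refl _)) (hYR w hwY)
  obtain ⟨k, htk, hki, hkR, hkR'⟩ := hturn
  have hwWk : w ∈ Wk W0 S S' k := by
    rw [mem_Wk]
    refine ⟨?_, fun t ht => (mem_Wk.1 hwW).2 t (by omega)⟩
    rcases ht0loc with h1 | ⟨u, hu1, hut, hu⟩
    · exact Or.inl h1
    · exact Or.inr ⟨u, hu1, by omega, hu⟩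
  have hRw : R w (p (k + 1)) := by
    have hne : p (k + 1) ≠ w := by
      intro e
      rcases (mem_Wk.1 hwWk).1 with h1 | ⟨u, hu1, hui, hu⟩
      · exact h.wp (k + 1) (by omega) (by omega) (e ▸ h1)
      · exact h.ch.nmem (k + 1) u (by omega) (by omega) hu1 (by omega) (e ▸ hu)
    rcases h.tour.tot _ _ hne with h1 | h1
    · exact absurd h1 hkR'
    · exact h1
  obtain ⟨F', hF'sub, hF'⟩ := h.sys.ex k w (Y.filter (fun v => R w v))
    (fun x hx => (Finset.mem_filter.1 hx).2) hw
  have hF'Y : F' ⊆ Y := hF'sub.trans (Finset.filter_subset _ _)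
  have hF'W : F' ⊆ Wk W0 S S' i := hF'Y.trans hY
  have hWZ : ∀ v ∈ Wk W0 S S' i, v ∉ Z := by
    intro v hv hz
    rcases (mem_Wk.1 hv).1 with h1 | ⟨j, hj1, hjk, hj⟩
    · exact Finset.disjoint_left.1 h.zw hz h1
    · exact Finset.disjoint_left.1 (h.zS j hj1 (by omega)) hj hz
  have hWZk : ∀ v ∈ Wk W0 S S' k, v ∉ Z := by
    intro v hv hz
    rcases (mem_Wk.1 hv).1 with h1 | ⟨j, hj1, hjk, hj⟩
    · exact Finset.disjoint_left.1 h.zw hz h1
    · exact Finset.disjoint_left.1 (h.zS j hj1 (by omega)) hj hz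
  -- owners of the elements of F'
  set T : Finset ℕ := (Finset.Icc (k + 1) i).filter (fun t => (S t ∩ F').Nonempty) with hTdef
  have hTmem : ∀ t ∈ T, k + 1 ≤ t ∧ t ≤ i ∧ (S t ∩ F').Nonempty := by
    intro t ht
    rw [hTdef, Finset.mem_filter, Finset.mem_Icc] at ht
    exact ⟨ht.1.1, ht.1.2, ht.2⟩
  have hsum : ∑ t ∈ T, (S t ∩ F').card ≤ C := by
    have h1 : ∑ t ∈ T, (S t ∩ F').card = (T.biUnion (fun t => S t ∩ F')).card := by
      rw [Finset.card_biUnion]
      intro t ht t' ht' hne
      obtain ⟨a1, a2, -⟩ := hTmem t ht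
      obtain ⟨b1, b2, -⟩ := hTmem t' ht'
      have := h.ch.dis t t' (by omega) (by omega) (by omega) (by omega) hne
      exact this.mono Finset.inter_subset_left Finset.inter_subset_left
    rw [h1]
    have h2 : (T.biUnion (fun t => S t ∩ F')).card ≤ F'.card := by
      apply Finset.card_le_card
      intro v hv
      obtain ⟨t, -, ht⟩ := Finset.mem_biUnion.1 hv
      exact (Finset.mem_inter.1 ht).2
    rw [h.sys.card k w F' hF'] at h2
    exact h2.trans (h.sys.cle k)
  have hZ0 := card_Z0 (Z := Z) (φ := φ) h.tour h.sys.pos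
  have hzc := h.zc
  have hZ0Z : Z0 R Z φ ⊆ Z := fun z hz => (mem_Z0.1 hz).1
  obtain ⟨Sst, hS1, hS2, -⟩ := fresh h.sys p S F' (Z0 R Z φ) T
    (fun t ht => by obtain ⟨a1, a2, -⟩ := hTmem t ht; exact h.ch.dec t (by omega) (by omega))
    (fun t ht => (hTmem t ht).2.2)
    (fun t ht z hz => by
      obtain ⟨a1, a2, -⟩ := hTmem t ht
      exact Z0_below h hG hst hz t (by omega) (by omega) (by omega))
    (fun t ht => by
      obtain ⟨a1, a2, -⟩ := hTmem t ht
      exact (h.zS t (by omega) (by omega)).mono_right hZ0Z)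
    C hsum (by omega)
  apply hG
  refine insert_goal h (by omega) (by omega) (hst.mono hki) w (Or.inr hwWk) F' hF'
    (fun t => if t ∈ T then Sst t else S t) ?_ ?_ ?_ ?_ ?_ ?_ hkR (fun _ => hRw)
  · intro t ht htm
    by_cases h1 : t ∈ T
    · simp only [h1, if_true]; exact (hS1 t h1).1
    · simp only [h1, if_false]; exact h.ch.dec t (by omega) htm
  · intro t ht htm
    by_cases h1 : t ∈ T
    · simp only [h1, if_true]
      intro v hv
      rcases Finset.mem_union.1 ((hS1 t h1).2 hv) with h2 | h2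
      · exact Finset.mem_union_left _ (Finset.mem_sdiff.1 h2).1
      · exact Finset.mem_union_right _ (hZ0Z h2)
    · simp only [h1, if_false]; exact Finset.subset_union_left
  · -- pairwise disjoint
    have key : ∀ t t', k < t → t ≤ m → k < t' → t' ≤ m → t ≠ t' → t ∈ T →
        Disjoint (if t ∈ T then Sst t else S t) (if t' ∈ T then Sst t' else S t') := by
      intro t t' ht htm ht' htm' hne h1
      simp only [h1, if_true]
      rw [Finset.disjoint_left]
      intro v hv hv'
      have hSS := Finset.disjoint_left.1 (h.ch.dis t t' (by omega) htm (by omega) htm' hne)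
      by_cases h2 : t' ∈ T
      · simp only [h2, if_true] at hv'
        rcases Finset.mem_union.1 ((hS1 t h1).2 hv) with h3 | h3
        · rcases Finset.mem_union.1 ((hS1 t' h2).2 hv') with h4 | h4
          · exact hSS (Finset.mem_sdiff.1 h3).1 (Finset.mem_sdiff.1 h4).1
          · exact Finset.disjoint_left.1 (h.zS t (by omega) htm) (Finset.mem_sdiff.1 h3).1 (hZ0Z h4)
        · exact Finset.disjoint_left.1 (hS2 t h1 t' h2 hne) (Finset.mem_inter.2 ⟨hv, h3⟩)
            (Finset.mem_inter.2 ⟨hv', h3⟩)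
      · simp only [h2, if_false] at hv'
        rcases Finset.mem_union.1 ((hS1 t h1).2 hv) with h3 | h3
        · exact hSS (Finset.mem_sdiff.1 h3).1 hv'
        · exact Finset.disjoint_left.1 (h.zS t' (by omega) htm') hv' (hZ0Z h3)
    intro t t' ht htm ht' htm' hne
    by_cases h1 : t ∈ T
    · exact key t t' ht htm ht' htm' hne h1
    · by_cases h2 : t' ∈ T
      · exact (key t' t ht' htm' ht htm (Ne.symm hne) h2).symm
      · simp only [h1, h2, if_false]
        exact h.ch.dis t t' (by omega) htm (by omega) htm' hne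
  · intro f hf
    have hfW := hF'W hf
    rcases (mem_Wk.1 hfW).1 with h1 | ⟨u, hu1, hui, hu⟩
    · refine Or.inr (Or.inl ?_)
      rw [mem_Wk]
      exact ⟨Or.inl h1, fun t ht => (mem_Wk.1 hfW).2 t (by omega)⟩
    · rcases Nat.lt_or_ge k u with h2 | h2
      · exact Or.inr (Or.inr ⟨u, h2, by omega, hu⟩)
      · refine Or.inr (Or.inl ?_)
        rw [mem_Wk]
        exact ⟨Or.inr ⟨u, hu1, h2, hu⟩, fun t ht => (mem_Wk.1 hfW).2 t (by omega)⟩
  · intro t ht htm
    rw [Finset.disjoint_left]
    intro f hf hf'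
    have hfW := hF'W hf
    by_cases h1 : t ∈ T
    · simp only [h1, if_true] at hf'
      rcases Finset.mem_union.1 ((hS1 t h1).2 hf') with h3 | h3
      · exact (Finset.mem_sdiff.1 h3).2 hf
      · exact hWZ f hfW (hZ0Z h3)
    · simp only [h1, if_false] at hf'
      rcases Nat.lt_or_ge i t with h2 | h2
      · rcases (mem_Wk.1 hfW).1 with h4 | ⟨u, hu1, hui, hu⟩
        · exact Finset.disjoint_left.1 (h.wS t (by omega) htm) hf' h4
        · exact Finset.disjoint_left.1 (h.ch.dis u t hu1 (by omega) (by omega) htm (by omega)) hu hf'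
      · apply h1
        rw [hTdef, Finset.mem_filter, Finset.mem_Icc]
        exact ⟨⟨by omega, h2⟩, ⟨f, Finset.mem_inter.2 ⟨hf', hf⟩⟩⟩
  · intro t ht htm hmem
    have hwS : ∀ u, k < u → u ≤ m → w ∉ S u := by
      intro u hu hum hwu
      rcases (mem_Wk.1 hwWk).1 with h4 | ⟨v, hv1, hvi, hv⟩
      · exact Finset.disjoint_left.1 (h.wS u (by omega) hum) hwu h4
      · exact Finset.disjoint_left.1 (h.ch.dis v u hv1 (by omega) (by omega) hum (by omega)) hv hwu
    by_cases h1 : t ∈ T
    · simp only [h1, if_true] at hmem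
      rcases Finset.mem_union.1 ((hS1 t h1).2 hmem) with h3 | h3
      · exact hwS t ht htm (Finset.mem_sdiff.1 h3).1
      · exact hWZk w hwWk (hZ0Z h3)
    · simp only [h1, if_false] at hmem
      exact hwS t ht htm hmem

theorem card_Wk (h : Ctx R D c φ C κ m p S Z W0) {S' : ℕ → Finset V} {i : ℕ} (him : i ≤ m)
    (hst : St D p S W0 S' i) : W0.card + c i ≤ (Wk W0 S S' i).card + c 0 := by
  induction i with
  | zero =>
    have : Wk W0 S S' 0 = W0 := by
      ext v
      rw [mem_Wk]
      constructor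
      · rintro ⟨h1 | ⟨u, hu1, hu0, -⟩, -⟩
        · exact h1
        · omega
      · intro hv
        exact ⟨Or.inl hv, fun t ht => absurd ht (by omega)⟩
    rw [this]
  | succ i ih =>
    have h1 := ih (by omega) (hst.mono (by omega))
    have hsub : (Wk W0 S S' i \ S' i) ∪ S (i + 1) ⊆ Wk W0 S S' (i + 1) := by
      intro v hv
      rw [mem_Wk]
      rcases Finset.mem_union.1 hv with h2 | h2
      · rw [Finset.mem_sdiff, mem_Wk] at h2
        obtain ⟨⟨h3, h4⟩, h5⟩ := h2
        refine ⟨?_, ?_⟩
        · rcases h3 with h3 | ⟨u, hu1, hui, hu⟩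
          · exact Or.inl h3
          · exact Or.inr ⟨u, hu1, by omega, hu⟩
        · intro t ht
          rcases Nat.lt_or_ge t i with h6 | h6
          · exact h4 t h6
          · have : t = i := by omega
            subst this
            exact h5
      · refine ⟨Or.inr ⟨i + 1, by omega, le_refl _, h2⟩, ?_⟩
        intro t ht hv'
        rcases (mem_Wk.1 (hst.sub t ht hv')).1 with h3 | ⟨u, hu1, hui, hu⟩
        · exact Finset.disjoint_left.1 (h.wS (i + 1) (by omega) him) h2 h3
        · exact Finset.disjoint_left.1 (h.ch.dis u (i + 1) hu1 (by omega) (by omega) him (by omega)) hu h2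
    have hdisj : Disjoint (Wk W0 S S' i \ S' i) (S (i + 1)) := by
      rw [Finset.disjoint_left]
      intro v hv hv'
      rcases (mem_Wk.1 (Finset.mem_sdiff.1 hv).1).1 with h3 | ⟨u, hu1, hui, hu⟩
      · exact Finset.disjoint_left.1 (h.wS (i + 1) (by omega) him) hv' h3
      · exact Finset.disjoint_left.1 (h.ch.dis u (i + 1) hu1 (by omega) (by omega) him (by omega)) hu hv'
    have h2 := Finset.card_le_card hsub
    rw [Finset.card_union_of_disjoint hdisj, Finset.card_sdiff_of_subset (hst.sub i (by omega)),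
      h.sys.card _ _ _ (h.ch.dec (i + 1) (by omega) him), h.sys.card _ _ _ (hst.dec i (by omega))] at h2
    have h3 : c i ≤ (Wk W0 S S' i).card := by
      rw [← h.sys.card _ _ _ (hst.dec i (by omega))]
      exact Finset.card_le_card (hst.sub i (by omega))
    omega

theorem slide (h : Ctx R D c φ C κ m p S Z W0) (hG : ¬ Goal R D m p S Z W0) (i : ℕ) (him : i ≤ m) :
    ∃ S' : ℕ → Finset V, St D p S W0 S' i := by
  classical
  induction i with
  | zero => exact ⟨fun _ => ∅, ⟨fun t ht => absurd ht (by omega), fun t ht => absurd ht (by omega)⟩⟩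
  | succ i ih =>
    obtain ⟨S', hst⟩ := ih (by omega)
    have hcard := card_Wk h (by omega : i ≤ m) hst
    have hc0 := h.sys.cle 0
    have hwc := h.wc
    -- enough usable vertices
    have hX : φ ≤ ((Wk W0 S S' i).filter (fun w => R (p (i + 1)) w)).card := by
      rcases Nat.eq_zero_or_pos i with h0 | h0
      · subst h0
        have : W0 ⊆ (Wk W0 S S' 0).filter (fun w => R (p (0 + 1)) w) := by
          intro v hv
          rw [Finset.mem_filter, mem_Wk]
          exact ⟨⟨Or.inl hv, fun t ht => absurd ht (by omega)⟩, h.w1 v hv⟩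
        have := Finset.card_le_card this
        omega
      · have h1 := dead_bound h hG h0 (by omega) hst ((Wk W0 S S' i).filter (fun w => ¬ R (p (i + 1)) w))
          (Finset.filter_subset _ _) (by
            intro y hy
            rw [Finset.mem_filter] at hy
            have hne : p (i + 1) ≠ y := by
              intro e
              rcases (mem_Wk.1 hy.1).1 with h1 | ⟨u, hu1, hui, hu⟩
              · exact h.wp (i + 1) (by omega) him (e ▸ h1)
              · exact h.ch.nmem (i + 1) u (by omega) him hu1 (by omega) (e ▸ hu)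
            rcases h.tour.tot _ _ hne with h1 | h1
            · exact absurd h1 hy.2
            · exact h1)
        have h2 := Finset.card_filter_add_card_filter_not (s := Wk W0 S S' i) (fun w => R (p (i + 1)) w)
        omega
    obtain ⟨A, hA1, hA2⟩ := h.sys.ex i (p (i + 1)) _ (fun x hx => (Finset.mem_filter.1 hx).2) hX
    have hWeq : ∀ t, t ≤ i → Wk W0 S (Function.update S' i A) t = Wk W0 S S' t := by
      intro t ht
      ext v
      rw [mem_Wk, mem_Wk]
      constructor
      · rintro ⟨a1, a2⟩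
        refine ⟨a1, fun u hu => ?_⟩
        have := a2 u hu
        rwa [Function.update_of_ne (by omega)] at this
      · rintro ⟨a1, a2⟩
        refine ⟨a1, fun u hu => ?_⟩
        rw [Function.update_of_ne (by omega)]
        exact a2 u hu
    refine ⟨Function.update S' i A, ⟨?_, ?_⟩⟩
    · intro t ht
      rcases Nat.lt_or_ge t i with h1 | h1
      · rw [Function.update_of_ne (by omega)]
        exact hst.dec t h1
      · have : t = i := by omega
        subst this
        rw [Function.update_self]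
        exact hA2
    · intro t ht
      rw [hWeq t (by omega)]
      rcases Nat.lt_or_ge t i with h1 | h1
      · rw [Function.update_of_ne (by omega)]
        exact hst.sub t h1
      · have : t = i := by omega
        subst this
        rw [Function.update_self]
        exact hA1.trans (Finset.filter_subset _ _)

/-- **Core lemma.** -/
theorem core (h : Ctx R D c φ C κ m p S Z W0) : Goal R D m p S Z W0 := by
  classical
  by_contra hG
  obtain ⟨S', hst⟩ := slide h hG m (le_refl _)
  have hZ0 := card_Z0 (Z := Z) (φ := φ) h.tour h.sys.pos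
  have hzc := h.zc
  have hpos := h.sys.pos
  have hm := h.hm
  have hne : (Z0 R Z φ).Nonempty := by
    rw [← Finset.card_pos]
    omega
  obtain ⟨z, hz⟩ := hne
  have hRz := Z0_below h hG hst hz m h.hm (by omega) (le_refl _)
  obtain ⟨hzZ, X, hXZ, hXc, hXR⟩ := mem_Z0.1 hz
  obtain ⟨F', hF'X, hF'⟩ := h.sys.ex m z X hXR hXc
  apply hG
  refine insert_goal h h.hm (le_refl _) hst z (Or.inl hzZ) F' hF' S ?_ ?_ ?_ ?_ ?_ ?_ hRz
    (fun hlt => absurd hlt (lt_irrefl _))
  · intro t ht htm; omega
  · intro t ht htm; omega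
  · intro t t' ht htm; omega
  · intro f hf
    exact Or.inl (hXZ (hF'X hf))
  · intro t ht htm; omega
  · intro t ht htm; omega

end slide

end GS78
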